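import Mathlib
import Pool.Agent.Helper76.CY.Fam
import Pool.Agent.Helper37.RP.Inst

/-!
# Complete intersections of bidegrees `(1,1)`, `(1,1)`, `(2,2)` in `P^3 × P^3`: definitions

`OnX c x y`: the point `(x, y)` lies on the complete intersection with the coefficients `c`.
`cG c i j`, `cH c i j`: the forms of degree six in `y` (in `x`) which give the two points over `y`
(over `x`). `Std c`: the normal form at a point `q = (e0, e0)`, fixed by both involutions, where the
differential of their product is unipotent, together with a line `<e0, e1>` through `e0` whose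
preimage is a curve `u ^ 2 = q4(s)`. `Near c x y`: a point with values in `k[[s]]` over `q`.
`sgx`, `sgy`: the two involutions. `act d h1 h2 τ A B`: change of coordinates.
-/

namespace Pool.Agent.Helper92.CY

open MvPolynomial Pool.Agent.Helper37.RP Pool.Agent.Helper76.CY

section

variable {R : Type*} [CommRing R]

/-- The point `(x, y)` lies on the complete intersection with the coefficients `c`. -/
def OnX {S : Type*} [CommRing S] [Algebra R S] (c : Ix → R) (x y : Fin 4 → S) : Prop :=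
  OnL (pL c) x y ∧ OnL (pL' c) x y ∧ OnQ (pQ c) x y

/-- The forms in `y` which give the two points `x`, `x'` over `y`. -/
noncomputable def cG (c : Ix → R) (i j : Fin 4) : MvPolynomial (Fin 4) R :=
  chow4 (pL c) (pL' c) (pQ c) i j

/-- The forms in `x` which give the two points `y`, `y''` over `x`. -/
noncomputable def cH (c : Ix → R) (i j : Fin 4) : MvPolynomial (Fin 4) R :=
  chow4 (fun i j => pL c j i) (fun i j => pL' c j i) (fun i j k l => pQ c k l i j) i j

theorem cH_eq_cG (c : Ix → R) (i j : Fin 4) : cH c i j = cG (fun e => c (swI e)) i j := by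
  rw [cH, cG, pL_sw, pL'_sw, pQ_sw]

theorem cG_eq_cH (c : Ix → R) (i j : Fin 4) : cG c i j = cH (fun e => c (swI e)) i j := by
  rw [cH_eq_cG]
  simp only [swI_swI]

/-- The normal form. -/
structure Std (c : Ix → R) : Prop where
  l0 : ∀ j, pL c 0 j = if j = 1 then 1 else 0
  l1 : ∀ j, pL c 1 j = if j = 3 then 1 else 0
  l2 : pL c 2 0 = 1
  l3 : pL c 3 0 = 0
  m0 : ∀ j, pL' c 0 j = if j = 2 then 1 else 0
  m1 : ∀ j, pL' c 1 j = if j = 0 then 1 else 0
  m2 : pL' c 2 0 = 0
  m3 : pL' c 3 0 = 0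
  q00 : ∀ k, pQ c 0 0 0 k = 0
  q11 : ∀ k, pQ c 1 1 1 k = 0
  q01 : pQ c 0 1 1 1 = 0
  q1 : pQ c 0 1 0 0 = 0
  q2 : pQ c 0 2 0 0 = 1
  q3 : pQ c 0 3 0 0 = 0
  qP : pQ c 3 3 0 0 = 1
  qR : pQ c 0 0 3 3 = 2 * pQ c 0 3 0 3 * (2 * pQ c 0 3 0 3 - pL c 3 3)

/-- A constant of the normal form. -/
def mm (c : Ix → R) : R := pQ c 0 3 0 3

/-- A constant of the normal form. -/
def del (c : Ix → R) : R := 2 * pQ c 0 3 0 3 - pL c 3 3

/-- A constant of the normal form. -/
def F1 (c : Ix → R) : R := pQ c 1 3 0 0 + pL c 3 2 - 2 * pQ c 0 3 0 2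

/-- A constant of the normal form. -/
def F2 (c : Ix → R) : R := 2 * pQ c 0 1 0 3 - pQ c 0 0 2 3

open Polynomial in
/-- The leading coefficient of the quadratic equation of the curve over the line `<e0, e1>`. -/
noncomputable def U2 (c : Ix → R) : Polynomial R :=
  Polynomial.C (pQ c 0 0 3 3) + Polynomial.C (2 * pQ c 0 1 3 3 - 2 * pQ c 0 0 1 3) * Polynomial.X +
    Polynomial.C (pQ c 0 0 1 1 - 4 * pQ c 0 1 1 3 + pQ c 1 1 3 3) * Polynomial.X ^ 2

/-- The middle coefficient. -/
noncomputable def V1 (c : Ix → R) : Polynomial R :=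
  Polynomial.C (4 * pQ c 0 1 0 3 - 2 * pQ c 0 0 2 3) +
    Polynomial.C (2 * pQ c 0 0 1 2 - 4 * pQ c 0 1 0 1 - 4 * pQ c 0 1 2 3 + 2 * pQ c 1 1 0 3) *
      Polynomial.X +
    Polynomial.C (4 * pQ c 0 1 1 2 - 2 * pQ c 1 1 2 3) * Polynomial.X ^ 2

/-- The last coefficient. -/
noncomputable def V0 (c : Ix → R) : Polynomial R :=
  Polynomial.C (pQ c 0 0 2 2 - 4 * pQ c 0 1 0 2 + pQ c 1 1 0 0) +
    Polynomial.C (2 * pQ c 0 1 2 2 - 2 * pQ c 1 1 0 2) * Polynomial.X +
    Polynomial.C (pQ c 1 1 2 2) * Polynomial.X ^ 2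

/-- The discriminant. -/
noncomputable def q4 (c : Ix → R) : Polynomial R := V1 c ^ 2 - 4 * U2 c * V0 c

/-- The open conditions on the normal form. -/
structure Gen {k : Type*} [Field k] (c : Ix → k) : Prop where
  std : Std c
  hm : mm c ≠ 0
  hd : del c ≠ 0
  he : F2 c ≠ 2 * mm c * F1 c
  h0 : (q4 c).eval 0 ≠ 0
  sep : (q4 c).Separable
  deg : 1 ≤ (q4 c).natDegree

end

section series

variable {k : Type*} [Field k]

/-- A point with values in `k[[s]]` over the point `(e0, e0)`. -/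
structure Near (c : Ix → k) (x y : Fin 4 → PowerSeries k) : Prop where
  x0 : x 0 = 1
  y0 : y 0 = 1
  cx : ∀ i, i ≠ 0 → PowerSeries.constantCoeff (x i) = 0
  cy : ∀ i, i ≠ 0 → PowerSeries.constantCoeff (y i) = 0
  on : OnX c x y

/-- The involution over `y`. -/
noncomputable def sgx (c : Ix → k) (y x : Fin 4 → PowerSeries k) : Fin 4 → PowerSeries k :=
  fun j => 2 * aeval y (cG c 0 j) * (aeval y (cG c 0 0))⁻¹ - x j

/-- The involution over `x`. -/
noncomputable def sgy (c : Ix → k) (x y : Fin 4 → PowerSeries k) : Fin 4 → PowerSeries k :=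
  fun j => 2 * aeval x (cH c 0 j) * (aeval x (cH c 0 0))⁻¹ - y j

end series

section change

variable {R : Type*} [CommRing R]

/-- Change of coordinates. -/
def act (d : Ix → R) (h1 h2 : Matrix (Fin 4) (Fin 4) R) (τ : Matrix (Fin 2) (Fin 2) R)
    (A B : Matrix (Fin 4) (Fin 4) R) : Ix → R
  | .inl (i, j) => ∑ a, ∑ b, (τ 0 0 * pL d a b + τ 0 1 * pL' d a b) * h1 a i * h2 b j
  | .inr (.inl (i, j)) => ∑ a, ∑ b, (τ 1 0 * pL d a b + τ 1 1 * pL' d a b) * h1 a i * h2 b j
  | .inr (.inr (i, j, k, l)) =>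
    ∑ a, ∑ b, ∑ e, ∑ f, d (.inr (.inr (a, b, e, f))) * h1 a i * h1 b j * h2 e k * h2 f l +
      A i k * (∑ a, ∑ b, pL d a b * h1 a j * h2 b l) +
      B i k * (∑ a, ∑ b, pL' d a b * h1 a j * h2 b l)

end change

section norm

variable {R : Type*} [CommRing R]

/-- The affine point with the coordinates `x`. -/
def aff {S : Type*} [CommRing S] (x : Fin 3 → S) : Fin 4 → S := Fin.cons 1 x

/-- The element `ω` of the coordinate ring of the chart, `cH c 0 0 * y k = cH c 0 k + ω * t k`
where `t` is the direction of the line over `x` in the chart `y 0 = 1`. -/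
noncomputable def omx {S : Type*} [CommRing S] [Algebra R S] (c : Ix → R) (x y : Fin 4 → S) : S :=
  2 * bil ((quad fun i j k l => pQ c k l i j).map (aeval x : _ →ₐ[R] S)) y
    (fun l => N4 (fun i => aeval x (lin (fun i j => pL c j i) i))
      (fun i => aeval x (lin (fun i j => pL' c j i) i)) l 0)

/-- The form `P` in `x` with `cH c 0 0 * ω ^ 2 = P`. -/
noncomputable def Px (c : Ix → R) : MvPolynomial (Fin 4) R :=
  -2 * bil (quad fun i j k l => pQ c k l i j) (fun k => cH c 0 k) (fun k => cH c 0 k)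

/-- The affine polynomial `F(1, x)`. -/
noncomputable def deh (F : MvPolynomial (Fin 4) R) : MvPolynomial (Fin 3) R := aeval (aff X) F

/-- The polynomial `cH c 0 0 * Px c` is not a square (in a weak sense). -/
def NS {K : Type*} [Field K] (c : Ix → K) : Prop :=
  ∀ r0 r1 : MvPolynomial (Fin 3) K, deh (cH c 0 0) * r0 ^ 2 = r1 ^ 2 * deh (Px c) →
    r0 = 0 ∧ r1 = 0

/-- The ideal of the complete intersection in the chart `x 0 = y 0 = 1`. -/
noncomputable def chartIdeal {K : Type*} [CommRing K] (c : Ix → K) :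
    Ideal (MvPolynomial (Fin 3 ⊕ Fin 3) K) :=
  Ideal.span {∑ i, ∑ j, C (pL c i j) * (aff (fun i => X (.inl i)) i * aff (fun i => X (.inr i)) j),
    ∑ i, ∑ j, C (pL' c i j) * (aff (fun i => X (.inl i)) i * aff (fun i => X (.inr i)) j),
    ∑ i, ∑ j, ∑ k, ∑ l, C (pQ c i j k l) * (aff (fun i => X (.inl i)) i *
      aff (fun i => X (.inl i)) j * (aff (fun i => X (.inr i)) k * aff (fun i => X (.inr i)) l))}

end norm

end Pool.Agent.Helper92.CY
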