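import Mathlib
import Pool.Agent.Helper92.CY.Defs

/-!
# The chart of the complete intersection: algebra
-/

namespace Pool.Agent.Helper92.CY

open MvPolynomial Pool.Agent.Helper37.RP Pool.Agent.Helper76.CY

section

variable {R S : Type*} [CommRing R] [CommRing S] [Algebra R S]

theorem onL_smul (L : Matrix (Fin 4) (Fin 4) R) (a b : S) (x y : Fin 4 → S) (h : OnL L x y) :
    OnL L (fun i => a * x i) (fun i => b * y i) := by
  unfold OnL at h ⊢
  have e : ∀ i j, algebraMap R S (L i j) * (a * x i * (b * y j)) =
      a * b * (algebraMap R S (L i j) * (x i * y j)) := fun i j => by ring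
  simp only [e, ← Finset.mul_sum, h, mul_zero]

theorem onQ_smul (Q : Fin 4 → Fin 4 → Fin 4 → Fin 4 → R) (a b : S) (x y : Fin 4 → S)
    (h : OnQ Q x y) : OnQ Q (fun i => a * x i) (fun i => b * y i) := by
  unfold OnQ at h ⊢
  have e : ∀ i j k l, algebraMap R S (Q i j k l) * (a * x i * (a * x j) * (b * y k * (b * y l))) =
      a ^ 2 * b ^ 2 * (algebraMap R S (Q i j k l) * (x i * x j * (y k * y l))) :=
    fun i j k l => by ring
  simp only [e, ← Finset.mul_sum, h, mul_zero]

theorem onX_smul (c : Ix → R) (a b : S) (x y : Fin 4 → S) (h : OnX c x y) :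
    OnX c (fun i => a * x i) (fun i => b * y i) :=
  ⟨onL_smul _ a b x y h.1, onL_smul _ a b x y h.2.1, onQ_smul _ a b x y h.2.2⟩

theorem onX_swap (c : Ix → R) (x y : Fin 4 → S) :
    OnX (fun e => c (swI e)) y x ↔ OnX c x y := by
  unfold OnX
  rw [pL_sw, pL'_sw, pQ_sw, onQ_swap]
  have h1 := onL_swap (S := S) (pL c) x y
  have h2 := onL_swap (S := S) (pL' c) x y
  rw [← h1, ← h2]

/-- Functoriality of the points. -/
theorem onX_map {T : Type*} [CommRing T] [Algebra R T] (f : S →ₐ[R] T) (c : Ix → R)
    (x y : Fin 4 → S) (h : OnX c x y) : OnX c (fun i => f (x i)) (fun i => f (y i)) := by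
  obtain ⟨h1, h2, h3⟩ := h
  unfold OnL at h1 h2
  unfold OnQ at h3
  refine ⟨?_, ?_, ?_⟩
  · have := congrArg f h1
    simpa [OnL, map_sum] using this
  · have := congrArg f h2
    simpa [OnL, map_sum] using this
  · have := congrArg f h3
    simpa [OnQ, map_sum] using this

end

section base

variable {K L : Type*} [CommRing K] [CommRing L] [Algebra K L]

theorem pL_map (c : Ix → K) : pL (fun e => algebraMap K L (c e)) =
    fun i j => algebraMap K L (pL c i j) := rfl

theorem pL'_map (c : Ix → K) : pL' (fun e => algebraMap K L (c e)) =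
    fun i j => algebraMap K L (pL' c i j) := rfl

theorem pQ_map (c : Ix → K) : pQ (fun e => algebraMap K L (c e)) =
    fun i j k l => algebraMap K L (pQ c i j k l) := by
  funext i j k l
  simp [pQ]

/-- Points do not depend on the base ring. -/
theorem onX_base {S : Type*} [CommRing S] [Algebra K S] [Algebra L S] [IsScalarTower K L S]
    (c : Ix → K) (x y : Fin 4 → S) :
    OnX (fun e => algebraMap K L (c e)) x y ↔ OnX c x y := by
  unfold OnX
  rw [pL_map, pL'_map, pQ_map]
  unfold OnL OnQ
  simp only [← IsScalarTower.algebraMap_apply]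

theorem map_cG (c : Ix → K) (i j : Fin 4) :
    MvPolynomial.map (algebraMap K L) (cG c i j) = cG (fun e => algebraMap K L (c e)) i j := by
  rw [cG, cG, map_chow4, pL_map, pL'_map, pQ_map]

theorem map_cH (c : Ix → K) (i j : Fin 4) :
    MvPolynomial.map (algebraMap K L) (cH c i j) = cH (fun e => algebraMap K L (c e)) i j := by
  rw [cH_eq_cG, cH_eq_cG, map_cG]

theorem aeval_cG_base {S : Type*} [CommRing S] [Algebra K S] [Algebra L S] [IsScalarTower K L S]
    (c : Ix → K) (y : Fin 4 → S) (i j : Fin 4) :
    aeval y (cG (fun e => algebraMap K L (c e)) i j) = aeval y (cG c i j) := by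
  rw [← map_cG, aeval_map_algebraMap]

theorem aeval_cH_base {S : Type*} [CommRing S] [Algebra K S] [Algebra L S] [IsScalarTower K L S]
    (c : Ix → K) (y : Fin 4 → S) (i j : Fin 4) :
    aeval y (cH (fun e => algebraMap K L (c e)) i j) = aeval y (cH c i j) := by
  rw [← map_cH, aeval_map_algebraMap]

end base

section hom

variable {K : Type*} [Field K]

/-- Homogenization: for a polynomial `N` in three variables there is a form `H` in four variables
with `H(v) = v0^m N(v / v0)`. -/
theorem exists_homog (N : MvPolynomial (Fin 3) K) : ∃ (m : ℕ) (H : MvPolynomial (Fin 4) K),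
    H.IsHomogeneous m ∧ aeval (aff (X : Fin 3 → MvPolynomial (Fin 3) K)) H = N ∧
      ∀ (S : Type*) [Field S] [Algebra K S] (v : Fin 4 → S), v 0 ≠ 0 →
        aeval v H = v 0 ^ m * aeval (fun j : Fin 3 => v j.succ / v 0) N := by
  classical
  refine ⟨N.totalDegree, ∑ j ∈ Finset.range (N.totalDegree + 1),
    X 0 ^ (N.totalDegree - j) * rename Fin.succ (homogeneousComponent j N), ?_, ?_, ?_⟩
  · refine IsHomogeneous.sum _ _ _ fun j hj => ?_
    have h1 : (X 0 ^ (N.totalDegree - j) : MvPolynomial (Fin 4) K).IsHomogeneous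
        (N.totalDegree - j) := by
      have := (isHomogeneous_X K (0 : Fin 4)).pow (N.totalDegree - j)
      rwa [one_mul] at this
    have h2 := (homogeneousComponent_isHomogeneous j N).rename_isHomogeneous (f := Fin.succ)
    have h3 := h1.mul h2
    rwa [Nat.sub_add_cancel (Nat.lt_succ_iff.mp (Finset.mem_range.mp hj))] at h3
  · rw [map_sum]
    have e : ∀ j, aeval (aff (X : Fin 3 → MvPolynomial (Fin 3) K))
        (X 0 ^ (N.totalDegree - j) * rename Fin.succ (homogeneousComponent j N)) =
        homogeneousComponent j N := by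
      intro j
      rw [map_mul, map_pow, aeval_X, aeval_rename]
      have e1 : aff (X : Fin 3 → MvPolynomial (Fin 3) K) 0 = 1 := rfl
      have e2 : aff (X : Fin 3 → MvPolynomial (Fin 3) K) ∘ Fin.succ = X := rfl
      rw [e1, e2, one_pow, one_mul, aeval_X_left_apply]
    rw [Finset.sum_congr rfl fun j _ => e j, sum_homogeneousComponent]
  · intro S _ _ v hv
    have h0 : aeval (fun j : Fin 3 => v j.succ / v 0) N = ∑ j ∈ Finset.range (N.totalDegree + 1),
        aeval (fun j : Fin 3 => v j.succ / v 0) (homogeneousComponent j N) := by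
      rw [← map_sum, sum_homogeneousComponent]
    rw [h0, map_sum, Finset.mul_sum]
    refine Finset.sum_congr rfl fun j hj => ?_
    rw [map_mul, map_pow, aeval_X, aeval_rename]
    have hle : j ≤ N.totalDegree := Nat.lt_succ_iff.mp (Finset.mem_range.mp hj)
    have h1 : aeval (v ∘ Fin.succ) (homogeneousComponent j N) =
        v 0 ^ j * aeval (fun i : Fin 3 => v i.succ / v 0) (homogeneousComponent j N) := by
      have e : (v ∘ Fin.succ) = fun i : Fin 3 => v 0 * (v i.succ / v 0) := by
        funext i
        rw [Function.comp_apply, mul_div_cancel₀ _ hv]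
      rw [e, aeval_def, aeval_def, eval₂_eq, eval₂_eq, Finset.mul_sum]
      refine Finset.sum_congr rfl fun a ha => ?_
      have hn := (homogeneousComponent_isHomogeneous j N).degree_eq_sum_deg_support ha
      simp only [mul_pow]
      rw [Finset.prod_mul_distrib, Finset.prod_pow_eq_pow_sum, ← hn]
      ring
    rw [h1, ← mul_assoc, ← pow_add, Nat.sub_add_cancel hle]

end hom

end Pool.Agent.Helper92.CY
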