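import Mathlib
import Pool.Agent.Helper92.CY.Defs
import Pool.Agent.Helper12.CYJ.Jets
import Pool.Agent.Helper37.CYL.Step
import Pool.Agent.Helper16.CY.Chain
import Pool.Agent.Helper26.CY.Curve
import Pool.Agent.Helper28.CY.Act
import Pool.Agent.Helper51.CY.N9
import Pool.Agent.Helper63.CY.Jets
import Pool.Agent.Helper63.CY.Pts
import Pool.Agent.Helper76.CY.Std7
import Pool.Agent.Helper95.CY.Transport
import Pool.Agent.Helper32.CY.NS3
import Pool.Agent.Helper47.NI.Closure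
import Pool.Agent.Helper63.NPD.Dense37
import Pool.Agent.Helper15.PotDense

/-!
# CYThreefolds: the pieces

The main theorem: for general coefficients `c` over a number field `K` the complete intersection is
potentially dense.
-/

namespace Pool.Agent.Helper92.CY.Real

open MvPolynomial Pool.Agent.Helper37.RP Pool.Agent.Helper76.CY Pool.Agent.Helper92.CY

section jets

variable {k : Type*} [Field k]

/-- CY-1a. Tangent space at `q`. -/
theorem jet_on {c : Ix → k} (hc : Std c) (h2 : (2 : k) ≠ 0) {x y : Fin 4 → PowerSeries k}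
    (h : Near c x y) :
    PowerSeries.coeff 1 (x 2) = 0 ∧ PowerSeries.coeff 1 (y 1) = 0 ∧
      PowerSeries.coeff 1 (y 2) = - PowerSeries.coeff 1 (x 1) :=
  Pool.Agent.Helper12.CYJ.jet_on hc h2 h

/-- CY-1b. First order terms of the forms over `y`. Only `Std c`, the constant terms of `y` and the
first order conditions `η1 = 0`, `η2 = - ξ1` are used. -/
theorem jet_G {c : Ix → k} (hc : Std c) (h2 : (2 : k) ≠ 0) {x y : Fin 4 → PowerSeries k}
    (h : Near c x y) :
    PowerSeries.constantCoeff (aeval y (cG c 0 0)) = 2 ∧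
      (∀ j, j ≠ 0 → PowerSeries.constantCoeff (aeval y (cG c 0 j)) = 0) ∧
      PowerSeries.coeff 1 (aeval y (cG c 0 1)) = 2 * PowerSeries.coeff 1 (x 1) ∧
      PowerSeries.coeff 1 (aeval y (cG c 0 2)) = 0 ∧
      PowerSeries.coeff 1 (aeval y (cG c 0 3)) =
        - 2 * F1 c * PowerSeries.coeff 1 (x 1) - 2 * del c * PowerSeries.coeff 1 (y 3) :=
  Pool.Agent.Helper12.CYJ.jet_G hc h2 h

/-- CY-1c. First order terms of the forms over `x`. -/
theorem jet_H {c : Ix → k} (hc : Std c) (h2 : (2 : k) ≠ 0) {x y : Fin 4 → PowerSeries k}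
    (h : Near c x y) :
    PowerSeries.constantCoeff (aeval x (cH c 0 0)) = 2 * (2 * mm c * del c) ∧
      (∀ j, j ≠ 0 → PowerSeries.constantCoeff (aeval x (cH c 0 j)) = 0) ∧
      PowerSeries.coeff 1 (aeval x (cH c 0 1)) = 0 ∧
      PowerSeries.coeff 1 (aeval x (cH c 0 2)) =
        - 2 * (2 * mm c * del c) * PowerSeries.coeff 1 (x 1) ∧
      PowerSeries.coeff 1 (aeval x (cH c 0 3)) =
        - 2 * F2 c * PowerSeries.coeff 1 (x 1) - 4 * mm c * PowerSeries.coeff 1 (x 3) :=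
  Pool.Agent.Helper12.CYJ.jet_H hc h2 h

/-- CY-2a. The involution over `y`. -/
theorem step_x {c : Ix → k} (hc : Std c) (h2 : (2 : k) ≠ 0) {x y : Fin 4 → PowerSeries k}
    (h : Near c x y) :
    Near c (sgx c y x) y ∧ sgx c y (sgx c y x) = x ∧
      (∀ i j, 2 * aeval y (cG c i j) =
        aeval y (cG c 0 0) * (x i * sgx c y x j + x j * sgx c y x i)) ∧
      PowerSeries.coeff 1 (sgx c y x 1) = PowerSeries.coeff 1 (x 1) ∧
      PowerSeries.coeff 1 (sgx c y x 3) = - PowerSeries.coeff 1 (x 3) -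
        2 * F1 c * PowerSeries.coeff 1 (x 1) - 2 * del c * PowerSeries.coeff 1 (y 3) :=
  Pool.Agent.Helper37.CYL.step_x h2 h (jet_G hc h2 h)

/-- CY-2b. The involution over `x`. -/
theorem step_y {c : Ix → k} (hc : Std c) (h2 : (2 : k) ≠ 0) (hm : mm c ≠ 0) (hd : del c ≠ 0)
    {x y : Fin 4 → PowerSeries k} (h : Near c x y) :
    Near c x (sgy c x y) ∧ sgy c x (sgy c x y) = y ∧
      (∀ i j, 2 * aeval x (cH c i j) =
        aeval x (cH c 0 0) * (y i * sgy c x y j + y j * sgy c x y i)) ∧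
      PowerSeries.coeff 1 (sgy c x y 3) = - PowerSeries.coeff 1 (y 3) -
        (F2 c * PowerSeries.coeff 1 (x 1) + 2 * mm c * PowerSeries.coeff 1 (x 3)) /
          (mm c * del c) :=
  Pool.Agent.Helper37.CYL.step_y h2 hm hd h (jet_H hc h2 h)

/-- CY-3. The orbit under the infinite dihedral group; with `v = ξ3 + δ η3` one has `v ↦ -v - 2 F1`
under the first involution and `v ↦ -v - F2 / m` under the second one (if `ξ1 = 1`), so `ξ3`, `η3`
are quadratic polynomials in `n` with leading coefficients `± (F2 / m - 2 F1)`, times `1 / δ`. -/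
theorem chain [CharZero k] {c : Ix → k} (hc : Gen c) {x y : Fin 4 → PowerSeries k}
    (h : Near c x y) (h1 : PowerSeries.coeff 1 (x 1) = 1) :
    ∃ X Y : ℤ × Bool → Fin 4 → PowerSeries k, X (0, false) = x ∧ Y (0, false) = y ∧
      (∀ i, Near c (X i) (Y i)) ∧ (∀ i, PowerSeries.coeff 1 (X i 1) = 1) ∧
      (∀ n b, X (n, !b) = sgx c (Y (n, b)) (X (n, b)) ∧ Y (n, !b) = Y (n, b)) ∧
      (∀ n, Y (n + 1, true) = sgy c (X (n, false)) (Y (n, false)) ∧
        X (n + 1, true) = X (n, false)) ∧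
      (∀ n, Y (n - 1, false) = sgy c (X (n, true)) (Y (n, true)) ∧
        X (n - 1, false) = X (n, true)) ∧
      (∀ v, {i | PowerSeries.coeff 1 (X i 3) = v}.Finite) ∧
      (∀ v, {i | PowerSeries.coeff 1 (Y i 3) = v}.Finite) ∧
      ∀ S : Subring (PowerSeries k), (∀ e, PowerSeries.C (c e) ∈ S) → (∀ p ∈ S, p⁻¹ ∈ S) →
        (∀ j, x j ∈ S) → (∀ j, y j ∈ S) → ∀ i j, X i j ∈ S ∧ Y i j ∈ S :=
  Pool.Agent.Helper16.CY.chain hc h h1

/-- CY-4. Two forms without common factor vanish together at finitely many members of a family with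
infinitely many tangent directions. Proof: Bezout over the fraction field of `k[X0, Xa, Xb]` and
taking homogeneous components gives a nonzero form `D(X0, Xa, Xb)` in the ideal of the two forms;
its lowest form at the origin of the chart `X0 = 1` is a nonzero binary form which vanishes at
`(e, coeff 1 (X i b))`. -/
theorem fin_of_jets {ι : Type*} [Infinite k] (X : ι → Fin 4 → PowerSeries k)
    (h0 : ∀ i, X i 0 = 1) (hX : ∀ i j, j ≠ 0 → PowerSeries.constantCoeff (X i j) = 0)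
    (a b r : Fin 4) (ha0 : a ≠ 0) (hb0 : b ≠ 0) (hr0 : r ≠ 0) (hab : a ≠ b) (har : a ≠ r)
    (hbr : b ≠ r) (e : k) (he : e ≠ 0) (ha : ∀ i, PowerSeries.coeff 1 (X i a) = e)
    (hb : ∀ v, {i | PowerSeries.coeff 1 (X i b) = v}.Finite)
    (G1 G2 : MvPolynomial (Fin 4) k) (e1 e2 : ℕ) (hG1 : G1.IsHomogeneous e1)
    (hG2 : G2.IsHomogeneous e2) (h12 : IsRelPrime G1 G2) :
    {i | aeval (X i) G1 = 0 ∧ aeval (X i) G2 = 0}.Finite :=
  Pool.Agent.Helper63.CY.fin_of_jets X h0 hX a b r ha0 hb0 hr0 hab har hbr e he ha hb G1 G2 e1 e2 hG1 hG2 h12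

/-- CY-5. The curve over the line `<e0, e1>`: `x = (1, s, 0, 0)`, `y = (1, - s^2 w, - s, s w)`
with `U2 w^2 + V1 w + V0 = 0`. -/
theorem exists_curve [IsAlgClosed k] [CharZero k] {c : Ix → k} (hc : Gen c) :
    ∃ u w : PowerSeries k, u ^ 2 = ((q4 c : Polynomial k) : PowerSeries k) ∧
      w = (u - ((V1 c : Polynomial k) : PowerSeries k)) *
        (2 * ((U2 c : Polynomial k) : PowerSeries k))⁻¹ ∧
      Near c ![1, PowerSeries.X, 0, 0]
        ![1, - PowerSeries.X ^ 2 * w, - PowerSeries.X, PowerSeries.X * w] :=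
  Pool.Agent.Helper26.CY.exists_curve hc

end jets

/-- CY-6a. Curves `u^2 = q(s)` have infinitely many points after a finite extension. -/
theorem exists_points (K : Type) [Field K] [NumberField K] (q : Polynomial K) (hq : q.Separable)
    (h1 : 1 ≤ q.natDegree) (h4 : q.natDegree ≤ 4) :
    ∃ (L : Type) (_ : Field L) (_ : Algebra K L), FiniteDimensional K L ∧
      {p : L × L | p.2 ^ 2 = Polynomial.aeval p.1 q}.Infinite :=
  Pool.Agent.Helper63.CY.exists_points K q hq h1 h4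

/-- CY-6b. Transport of points. -/
theorem transport {K L Ω : Type} [Field K] [Field L] [Field Ω] [Algebra K L] [Algebra K Ω]
    [Algebra L Ω] [IsScalarTower K L Ω] (q : Polynomial L) (hq : q.Separable)
    (h1 : 1 ≤ q.natDegree) (h2 : (2 : L) ≠ 0)
    (hinf : {p : L × L | p.2 ^ 2 = q.eval p.1}.Infinite) (s u : Ω)
    (hs : Transcendental L s) (hu : u ^ 2 = Polynomial.aeval s q)
    (A : Type) [CommRing A] [Algebra K A] [Algebra.FiniteType K A] (ψ : A →ₐ[K] Ω)
    (hψ : ∀ a, ψ a ∈ IntermediateField.adjoin L {s, u}) (a : A) (ha : ψ a ≠ 0) :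
    ∃ φ : A →ₐ[K] L, φ a ≠ 0 :=
  Pool.Agent.Helper95.CY.transport q hq h1 h2 hinf s u hs hu A ψ hψ a ha

/-- CY-7. Dominance: general coefficients can be brought to the normal form over a finite
extension (`algInd_of_point`, `chev`); the example is `ex0` below. -/
theorem exists_std : ∃ Δ : MvPolynomial Ix ℚ, Δ ≠ 0 ∧
    ∀ (K : Type) [Field K] [CharZero K] (c : Ix → K), aeval c Δ ≠ 0 →
      ∃ (L : Type) (_ : Field L) (_ : CharZero L) (_ : Algebra K L) (_ : FiniteDimensional K L)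
        (d : Ix → L) (h1 h2 : Matrix (Fin 4) (Fin 4) L) (τ : Matrix (Fin 2) (Fin 2) L)
        (A B : Matrix (Fin 4) (Fin 4) L), Gen d ∧ h1.det ≠ 0 ∧ h2.det ≠ 0 ∧ τ.det ≠ 0 ∧
        h1.adjugate 0 0 ≠ 0 ∧ h2.adjugate 0 0 ≠ 0 ∧
        (fun e => algebraMap K L (c e)) = act d h1 h2 τ A B :=
  Pool.Agent.Helper76.CY.Std7.exists_std

section change

variable {R S : Type*} [CommRing R] [CommRing S] [Algebra R S]

/-- CY-8a. Change of coordinates of points. -/
theorem onX_act (d : Ix → R) (h1 h2 : Matrix (Fin 4) (Fin 4) R) (τ : Matrix (Fin 2) (Fin 2) R)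
    (A B : Matrix (Fin 4) (Fin 4) R) (hτ : IsUnit τ.det) (x y : Fin 4 → S) :
    OnX (act d h1 h2 τ A B) x y ↔
      OnX d ((h1.map (algebraMap R S)).mulVec x) ((h2.map (algebraMap R S)).mulVec y) :=
  Pool.Agent.Helper28.CY.onX_act d h1 h2 τ A B hτ x y

/-- CY-8b. Change of coordinates of the forms over `y`. Lemma: `h N4(hᵀ a, hᵀ b) hᵀ = det h N4(a, b)`,
and `N4(a, b)` kills `a`, `b`. -/
theorem cG_act (d : Ix → R) (h1 h2 : Matrix (Fin 4) (Fin 4) R) (τ : Matrix (Fin 2) (Fin 2) R)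
    (A B : Matrix (Fin 4) (Fin 4) R) (y : Fin 4 → S) :
    h1.map (algebraMap R S) *
        (Matrix.of fun i j => aeval y (cG (act d h1 h2 τ A B) i j)) *
        (h1.map (algebraMap R S)).transpose =
      algebraMap R S (h1.det ^ 2 * τ.det ^ 2) •
        Matrix.of fun i j => aeval ((h2.map (algebraMap R S)).mulVec y) (cG d i j) :=
  Pool.Agent.Helper28.CY.cG_act d h1 h2 τ A B y

/-- CY-8c. Change of coordinates of the forms over `x`. -/
theorem cH_act (d : Ix → R) (h1 h2 : Matrix (Fin 4) (Fin 4) R) (τ : Matrix (Fin 2) (Fin 2) R)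
    (A B : Matrix (Fin 4) (Fin 4) R) (x : Fin 4 → S) :
    h2.map (algebraMap R S) *
        (Matrix.of fun i j => aeval x (cH (act d h1 h2 τ A B) i j)) *
        (h2.map (algebraMap R S)).transpose =
      algebraMap R S (h2.det ^ 2 * τ.det ^ 2) •
        Matrix.of fun i j => aeval ((h1.map (algebraMap R S)).mulVec x) (cH d i j) :=
  Pool.Agent.Helper28.CY.cH_act d h1 h2 τ A B x

end change

section norm

variable {K : Type} [Field K]

/-- CY-9a. The equation of `ω`. -/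
theorem omx_eq (c : Ix → K) {S : Type} [CommRing S] [Algebra K S] (x y : Fin 4 → S)
    (hy : y 0 = 1) (h : OnX c x y) :
    (∀ l, aeval x (cH c 0 0) * y l = aeval x (cH c 0 l) + omx c x y *
      N4 (fun i => aeval x (lin (fun i j => pL c j i) i))
        (fun i => aeval x (lin (fun i j => pL' c j i) i)) l 0) ∧
      aeval x (cH c 0 0) * omx c x y ^ 2 = aeval x (Px c) :=
  Pool.Agent.Helper51.CY.omx_eq c x y hy h

/-- CY-9b. Every function is `r0 + r1 ω` up to a power of `cH c 0 0`. -/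
theorem norm_x (c : Ix → K) (F : MvPolynomial (Fin 3 ⊕ Fin 3) K) :
    ∃ (n : ℕ) (r0 r1 : MvPolynomial (Fin 3) K), ∀ (S : Type) [CommRing S] [Algebra K S]
      (x y : Fin 3 → S), OnX c (aff x) (aff y) →
      aeval (aff x) (cH c 0 0) ^ n * aeval (Sum.elim x y) F =
        aeval x r0 + aeval x r1 * omx c (aff x) (aff y) :=
  Pool.Agent.Helper51.CY.norm_x c F

/-- CY-9c. The discriminant is not a square: the jet at `h1⁻¹ (e0 + ε e2)`. -/
theorem ns_x {K L : Type} [Field K] [Field L] [Algebra K L] (h2 : (2 : L) ≠ 0) (c : Ix → K)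
    (d : Ix → L) (h1 h2 : Matrix (Fin 4) (Fin 4) L) (τ : Matrix (Fin 2) (Fin 2) L)
    (A B : Matrix (Fin 4) (Fin 4) L) (hd : Gen d) (hh1 : h1.det ≠ 0) (hh2 : h2.det ≠ 0)
    (hτ : τ.det ≠ 0) (ha1 : h1.adjugate 0 0 ≠ 0) (ha2 : h2.adjugate 0 0 ≠ 0)
    (hc : (fun e => algebraMap K L (c e)) = act d h1 h2 τ A B) : NS c :=
  Pool.Agent.Helper32.CY.ns_x ‹(2 : L) ≠ 0› c d h1 h2 τ A B hd hh1 hh2 hτ ha1 ha2 hc

/-- CY-9d. The same over `y`: the jet at `h2⁻¹ (e0 + ε e1)`. -/
theorem ns_y {K L : Type} [Field K] [Field L] [Algebra K L] (h2 : (2 : L) ≠ 0) (c : Ix → K)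
    (d : Ix → L) (h1 h2 : Matrix (Fin 4) (Fin 4) L) (τ : Matrix (Fin 2) (Fin 2) L)
    (A B : Matrix (Fin 4) (Fin 4) L) (hd : Gen d) (hh1 : h1.det ≠ 0) (hh2 : h2.det ≠ 0)
    (hτ : τ.det ≠ 0) (ha1 : h1.adjugate 0 0 ≠ 0) (ha2 : h2.adjugate 0 0 ≠ 0)
    (hc : (fun e => algebraMap K L (c e)) = act d h1 h2 τ A B) : NS (fun e => c (swI e)) :=
  Pool.Agent.Helper32.CY.ns_y ‹(2 : L) ≠ 0› c d h1 h2 τ A B hd hh1 hh2 hτ ha1 ha2 hc

end norm

/-- CY-11 (helper76). General coefficients have finitely many bad points. -/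
theorem exists_cond : ∃ Δ : MvPolynomial Ix ℚ, Δ ≠ 0 ∧
    ∀ (k : Type) [Field k] [IsAlgClosed k] [CharZero k] (c : Ix → k), aeval c Δ ≠ 0 →
      Pool.Agent.Helper63.NPD.Cond4 (pL c) (pL' c) (pQ c) :=
  Pool.Agent.Helper76.CY.Std7.exists_cond

end Pool.Agent.Helper92.CY.Real
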