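import Mathlib
import Pool.Agent.Helper92.CY.Alg
import Pool.Agent.Helper92.CY.Real

/-!
# Functions on the chart which vanish on a family of points
-/

namespace Pool.Agent.Helper92.CY

open MvPolynomial Pool.Agent.Helper37.RP Pool.Agent.Helper76.CY

section ring

variable {K : Type*} [CommRing K]

/-- The common denominator. -/
noncomputable def den (c : Ix → K) : MvPolynomial (Fin 3 ⊕ Fin 3) K :=
  aeval (aff fun i => X (.inl i)) (cH c 0 0) * aeval (aff fun i => X (.inr i)) (cG c 0 0)

/-- The coordinate ring of the complete intersection in the chart `x 0 = y 0 = 1`. -/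
abbrev CoordRing (c : Ix → K) : Type _ := MvPolynomial (Fin 3 ⊕ Fin 3) K ⧸ chartIdeal c

/-- The coordinate ring of the open part where `den c` is invertible. -/
abbrev Chart (c : Ix → K) : Type _ :=
  Localization.Away (Ideal.Quotient.mk (chartIdeal c) (den c))

variable {S : Type*} [CommRing S] [Algebra K S]

theorem aeval_aff_inl (x y : Fin 3 → S) (F : MvPolynomial (Fin 4) K) :
    aeval (Sum.elim x y) (aeval (aff fun i => (X (.inl i) : MvPolynomial (Fin 3 ⊕ Fin 3) K)) F) =
      aeval (aff x) F := by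
  rw [comp_aeval_apply]
  congr 2
  funext i
  refine Fin.cases ?_ (fun j => ?_) i
  · show aeval (Sum.elim x y) (1 : MvPolynomial (Fin 3 ⊕ Fin 3) K) = 1
    rw [map_one]
  · show aeval (Sum.elim x y) (X (.inl j) : MvPolynomial (Fin 3 ⊕ Fin 3) K) = x j
    rw [aeval_X]
    rfl

theorem aeval_aff_inr (x y : Fin 3 → S) (F : MvPolynomial (Fin 4) K) :
    aeval (Sum.elim x y) (aeval (aff fun i => (X (.inr i) : MvPolynomial (Fin 3 ⊕ Fin 3) K)) F) =
      aeval (aff y) F := by
  rw [comp_aeval_apply]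
  congr 2
  funext i
  refine Fin.cases ?_ (fun j => ?_) i
  · show aeval (Sum.elim x y) (1 : MvPolynomial (Fin 3 ⊕ Fin 3) K) = 1
    rw [map_one]
  · show aeval (Sum.elim x y) (X (.inr j) : MvPolynomial (Fin 3 ⊕ Fin 3) K) = y j
    rw [aeval_X]
    rfl

theorem aeval_deh (x : Fin 3 → S) (F : MvPolynomial (Fin 4) K) :
    aeval x (deh F) = aeval (aff x) F := by
  rw [deh, comp_aeval_apply]
  congr 2
  funext i
  refine Fin.cases ?_ (fun j => ?_) i
  · show aeval x (1 : MvPolynomial (Fin 3) K) = 1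
    rw [map_one]
  · show aeval x (X j : MvPolynomial (Fin 3) K) = x j
    rw [aeval_X]

theorem aff_map {T : Type*} [CommRing T] [Algebra K T] (f : S →ₐ[K] T) (x : Fin 3 → S) :
    (fun i => f (aff x i)) = aff fun i => f (x i) := by
  funext i
  refine Fin.cases ?_ (fun j => ?_) i
  · show f 1 = 1
    rw [map_one]
  · rfl

/-- The three equations at a point with coordinates in an algebra. -/
theorem chartIdeal_le (c : Ix → K) (f : MvPolynomial (Fin 3 ⊕ Fin 3) K →ₐ[K] S) :
    chartIdeal c ≤ RingHom.ker f ↔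
      OnX c (aff fun i => f (X (.inl i))) (aff fun i => f (X (.inr i))) := by
  have ex := aff_map f fun i => (X (.inl i) : MvPolynomial (Fin 3 ⊕ Fin 3) K)
  have ey := aff_map f fun i => (X (.inr i) : MvPolynomial (Fin 3 ⊕ Fin 3) K)
  rw [chartIdeal, Ideal.span_le, Set.insert_subset_iff, Set.insert_subset_iff,
    Set.singleton_subset_iff, ← ex, ← ey]
  unfold OnX OnL OnQ
  simp only [SetLike.mem_coe, RingHom.mem_ker, map_sum, map_mul, algHom_C]

/-- The tautological point. -/
theorem onX_taut (c : Ix → K) :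
    OnX c (aff fun i => (Ideal.Quotient.mk (chartIdeal c) (X (.inl i)) : CoordRing c))
      (aff fun i => (Ideal.Quotient.mk (chartIdeal c) (X (.inr i)) : CoordRing c)) := by
  have := (chartIdeal_le c (Ideal.Quotient.mkₐ K (chartIdeal c))).mp (by
    intro a ha
    rw [RingHom.mem_ker]
    exact (Ideal.Quotient.eq_zero_iff_mem).mpr ha)
  exact this

/-- Evaluation at a point. -/
noncomputable def evQ (c : Ix → K) (x y : Fin 3 → S) (h : OnX c (aff x) (aff y)) :
    CoordRing c →ₐ[K] S :=
  Ideal.Quotient.liftₐ (chartIdeal c) (aeval (Sum.elim x y)) (by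
    have h1 := (chartIdeal_le c (aeval (Sum.elim x y) : MvPolynomial (Fin 3 ⊕ Fin 3) K →ₐ[K] S)).mpr
      (by simpa using h)
    exact fun a ha => h1 ha)

theorem evQ_mk (c : Ix → K) (x y : Fin 3 → S) (h : OnX c (aff x) (aff y))
    (F : MvPolynomial (Fin 3 ⊕ Fin 3) K) :
    evQ c x y h (Ideal.Quotient.mk _ F) = aeval (Sum.elim x y) F := rfl

/-- Evaluation at a point of the open part. -/
noncomputable def evC (c : Ix → K) (x y : Fin 3 → S) (h : OnX c (aff x) (aff y))
    (h1 : IsUnit (aeval (aff x) (cH c 0 0))) (h2 : IsUnit (aeval (aff y) (cG c 0 0))) :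
    Chart c →ₐ[K] S :=
  IsLocalization.liftAlgHom (M := Submonoid.powers (Ideal.Quotient.mk (chartIdeal c) (den c)))
    (f := evQ c x y h) (by
      rintro ⟨_, n, rfl⟩
      show IsUnit (evQ c x y h _)
      rw [map_pow, evQ_mk, den, map_mul, aeval_aff_inl, aeval_aff_inr]
      exact (h1.mul h2).pow n)

theorem evC_mk (c : Ix → K) (x y : Fin 3 → S) (h : OnX c (aff x) (aff y))
    (h1 : IsUnit (aeval (aff x) (cH c 0 0))) (h2 : IsUnit (aeval (aff y) (cG c 0 0)))
    (F : MvPolynomial (Fin 3 ⊕ Fin 3) K) :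
    evC c x y h h1 h2 (algebraMap (CoordRing c) (Chart c) (Ideal.Quotient.mk _ F)) =
      aeval (Sum.elim x y) F := by
  rw [evC, IsLocalization.liftAlgHom_apply, IsLocalization.lift_eq]
  rfl

end ring

end Pool.Agent.Helper92.CY
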