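import Mathlib
import Pool.Agent.Helper92.CY.Ev
import Pool.Agent.Helper40.CY.Card
import Pool.Agent.Helper51.CY.Bad
import Pool.Agent.Helper79.CY.Generic2

/-!
# CYThreefolds: the full chart

Components of the complete intersection in the chart `x 0 = y 0 = 1` do not lie in `den c = 0`.
-/

namespace Pool.Agent.Helper92.CY.Frame2

open MvPolynomial Pool.Agent.Helper37.RP Pool.Agent.Helper76.CY Pool.Agent.Helper92.CY

/-- CY-12a. Height and transcendence degree for primes of polynomial rings over fields (one
inequality). Induction on the number of variables: let `P1` be the contraction of `P` to the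
polynomials without the last variable; either `P = P1[X]` and the last variable is transcendental
over the residue field of `P1`, or `P1[X] < P` and the height of `P` is at least the height of `P1`
plus one. -/
theorem card_le_height_add_trdeg {K : Type*} [Field K] {n : ℕ} (P : Ideal (MvPolynomial (Fin n) K))
    [P.IsPrime] (r : ℕ) (h : P.height ≤ r) :
    (n : Cardinal) ≤ r + Algebra.trdeg K (MvPolynomial (Fin n) K ⧸ P) := by
  exact Pool.Agent.Helper40.CY.card_le_height_add_trdeg P r h

/-- CY-12b. A generic point of a component of dimension at least three: if three of the six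
coordinates are algebraically dependent, then some of the other three is transcendental over them. -/
theorem generic_point {K Ω : Type} [Field K] [Field Ω] [Algebra K Ω] (x y : Fin 3 → Ω)
    (h : (RingHom.ker (aeval (Sum.elim x y) : MvPolynomial (Fin 3 ⊕ Fin 3) K →ₐ[K] Ω)).height ≤ 3)
    (hx : ¬ AlgebraicIndependent K x) :
    ∃ j, Transcendental (IntermediateField.adjoin K (Set.range x)) (y j) := by
  exact Pool.Agent.Helper79.CY.generic_point x y h hx

/-- CY-12c. A point where finitely many forms vanish is rational over the algebraically closed field
`k` of the coefficients, up to a factor, if their common zero set over `k` does not meet the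
hyperplane `z 3 = 0`. Proof: Nullstellensatz, `X i ^ N` lies in the ideal of the forms and `X 3`, so
for `z j = x j / x 3` one has `z i ^ N = b i (z)` with `b i` of degree less than `N`, and the algebra
`k[z]` has finite dimension over `k`. -/
theorem bad_point {k Ω : Type} [Field k] [IsAlgClosed k] [Field Ω] [Algebra k Ω] {ι : Type}
    (H : ι → MvPolynomial (Fin 4) k) {d : ℕ} (hH : ∀ i, (H i).IsHomogeneous d)
    (hbad : ∀ z : Fin 4 → k, (∀ i, eval z (H i) = 0) → z 3 = 0 → z = 0)
    (x : Fin 4 → Ω) (hx : x ≠ 0) (h : ∀ i, aeval x (H i) = 0) :
    ∃ (l : Ω) (z : Fin 4 → k), ∀ j, x j = l * algebraMap k Ω (z j) := by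
  exact Pool.Agent.Helper51.CY.bad_point H hH hbad x hx h

end Pool.Agent.Helper92.CY.Frame2
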