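import Mathlib
import Pool.Agent.Helper92.CY.Ev

/-!
# Functions which vanish at the points of the orbit are zero
-/

namespace Pool.Agent.Helper92.CY

open MvPolynomial Pool.Agent.Helper37.RP Pool.Agent.Helper76.CY

/-- The norm of `F` over `x`. -/
theorem exists_normpoly {K : Type} [Field K] (c : Ix → K) (hns : NS c)
    (F : MvPolynomial (Fin 3 ⊕ Fin 3) K) :
    ∃ N : MvPolynomial (Fin 3) K,
      (∀ (S : Type) [Field S] [Algebra K S] (x y : Fin 3 → S), OnX c (aff x) (aff y) →
        aeval (Sum.elim x y) F = 0 → aeval x N = 0) ∧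
      (N = 0 → ∃ n : ℕ, ∀ (S : Type) [CommRing S] [Algebra K S] (x y : Fin 3 → S),
        OnX c (aff x) (aff y) → aeval (aff x) (cH c 0 0) ^ n * aeval (Sum.elim x y) F = 0) := by
  obtain ⟨n, r0, r1, h⟩ := Real.norm_x c F
  refine ⟨deh (cH c 0 0) * r0 ^ 2 - r1 ^ 2 * deh (Px c), ?_, ?_⟩
  · intro S _ _ x y hxy hF
    have h1 := h S x y hxy
    obtain ⟨-, h2⟩ := Real.omx_eq c (aff x) (aff y) rfl hxy
    rw [hF, mul_zero] at h1
    simp only [map_sub, map_mul, map_pow, aeval_deh]
    rw [← h2]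
    linear_combination (-(aeval (aff x) (cH c 0 0)) * (aeval x r0 - aeval x r1 *
      omx c (aff x) (aff y))) * h1
  · intro hN
    obtain ⟨h0, h1⟩ := hns r0 r1 (sub_eq_zero.mp hN)
    refine ⟨n, fun S _ _ x y hxy => ?_⟩
    rw [h S x y hxy, h0, h1]
    simp

/-- A polynomial which vanishes at all points of the family gives a form which vanishes. -/
theorem exists_form {K k Ω : Type} [Field K] [Field k] [Field Ω] [Algebra K k] [Algebra K Ω]
    [Algebra k Ω] [IsScalarTower K k Ω] {ι : Type} (X : ι → Fin 4 → Ω) (hX : ∀ i, X i 0 ≠ 0)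
    (N : MvPolynomial (Fin 3) K) (hN : N ≠ 0)
    (h : ∀ i, aeval (fun j : Fin 3 => X i j.succ / X i 0) N = 0) :
    ∃ (m : ℕ) (H : MvPolynomial (Fin 4) k), H.IsHomogeneous m ∧ H ≠ 0 ∧
      ∀ i, aeval (X i) H = 0 := by
  obtain ⟨m, H, hH, hd, hv⟩ := exists_homog.{0, 0} N
  refine ⟨m, MvPolynomial.map (algebraMap K k) H, hH.map _, ?_, ?_⟩
  · intro h0
    apply hN
    have : H = 0 := by
      apply map_injective (algebraMap K k) (algebraMap K k).injective
      rw [h0, map_zero]
    rw [← hd, this, map_zero]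
  · intro i
    rw [aeval_map_algebraMap, hv Ω (X i) (hX i), h i, mul_zero]

/-- Functions which vanish at the points of an orbit are zero. -/
theorem closure_F {K k Ω : Type} [Field K] [Field k] [Field Ω] [Algebra K k] [Algebra K Ω]
    [Algebra k Ω] [IsScalarTower K k Ω] [IsAlgClosed k] [CharZero k] {ι : Type} [Infinite ι]
    (c : Ix → K) (hns : NS c) (hns' : NS fun e => c (swI e))
    (hcond : Pool.Agent.Helper63.NPD.Cond4 (pL fun e => algebraMap K k (c e))
      (pL' fun e => algebraMap K k (c e)) (pQ fun e => algebraMap K k (c e)))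
    (X Y : ι → Fin 4 → Ω) (s t : ι → ι) (hs : Function.Injective s) (ht : Function.Injective t)
    (hX : ∀ i, ∃ l : Ω, ∀ a b, aeval (Y i) (cG c a b) =
      l * (X i a * X (s i) b + X i b * X (s i) a))
    (hY : ∀ i, ∃ l : Ω, ∀ a b, aeval (X i) (cH c a b) =
      l * (Y i a * Y (t i) b + Y i b * Y (t i) a))
    (fX : ∀ (F1 F2 : MvPolynomial (Fin 4) k) (e1 e2 : ℕ), F1.IsHomogeneous e1 →
      F2.IsHomogeneous e2 → IsRelPrime F1 F2 →
        {i | aeval (X i) F1 = 0 ∧ aeval (X i) F2 = 0}.Finite)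
    (fY : ∀ (F1 F2 : MvPolynomial (Fin 4) k) (e1 e2 : ℕ), F1.IsHomogeneous e1 →
      F2.IsHomogeneous e2 → IsRelPrime F1 F2 →
        {i | aeval (Y i) F1 = 0 ∧ aeval (Y i) F2 = 0}.Finite)
    (hon : ∀ i, OnX c (X i) (Y i)) (hX0 : ∀ i, X i 0 ≠ 0) (hY0 : ∀ i, Y i 0 ≠ 0)
    (F : MvPolynomial (Fin 3 ⊕ Fin 3) K)
    (hF : ∀ i, aeval (Sum.elim (fun j : Fin 3 => X i j.succ / X i 0)
      (fun j : Fin 3 => Y i j.succ / Y i 0)) F = 0) :
    algebraMap (CoordRing c) (Chart c) (Ideal.Quotient.mk _ F) = 0 := by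
  -- affine points
  have haffX : ∀ i, aff (fun j : Fin 3 => X i j.succ / X i 0) = fun a => (X i 0)⁻¹ * X i a := by
    intro i
    funext a
    refine Fin.cases ?_ (fun j => ?_) a
    · show (1 : Ω) = _
      rw [inv_mul_cancel₀ (hX0 i)]
    · show X i j.succ / X i 0 = _
      rw [div_eq_mul_inv, mul_comm]
  have haffY : ∀ i, aff (fun j : Fin 3 => Y i j.succ / Y i 0) = fun a => (Y i 0)⁻¹ * Y i a := by
    intro i
    funext a
    refine Fin.cases ?_ (fun j => ?_) a
    · show (1 : Ω) = _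
      rw [inv_mul_cancel₀ (hY0 i)]
    · show Y i j.succ / Y i 0 = _
      rw [div_eq_mul_inv, mul_comm]
  have hon' : ∀ i, OnX c (aff fun j : Fin 3 => X i j.succ / X i 0)
      (aff fun j : Fin 3 => Y i j.succ / Y i 0) := by
    intro i
    rw [haffX, haffY]
    exact onX_smul c _ _ _ _ (hon i)
  obtain ⟨N, hN1, hN2⟩ := exists_normpoly c hns F
  obtain ⟨N', hN1', hN2'⟩ := exists_normpoly (fun e => c (swI e)) hns' (rename Sum.swap F)
  have hren : ∀ (S : Type) [CommRing S] [Algebra K S] (x y : Fin 3 → S),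
      aeval (Sum.elim y x) (rename Sum.swap F) = aeval (Sum.elim x y) F := by
    intro S _ _ x y
    rw [aeval_rename]
    congr 1
    congr 1
    funext j
    rcases j with j | j <;> rfl
  -- the tautological point
  have htaut := onX_taut c
  have hval : aeval (Sum.elim (fun i => (Ideal.Quotient.mk (chartIdeal c) (MvPolynomial.X (.inl i)) :
      CoordRing c)) (fun i => (Ideal.Quotient.mk (chartIdeal c) (MvPolynomial.X (.inr i)) :
      CoordRing c))) F = Ideal.Quotient.mk (chartIdeal c) F := by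
    have e : (aeval (Sum.elim (fun i => (Ideal.Quotient.mk (chartIdeal c)
        (MvPolynomial.X (.inl i)) : CoordRing c)) (fun i => (Ideal.Quotient.mk (chartIdeal c)
        (MvPolynomial.X (.inr i)) : CoordRing c))) :
        MvPolynomial (Fin 3 ⊕ Fin 3) K →ₐ[K] CoordRing c) =
        Ideal.Quotient.mkₐ K (chartIdeal c) := by
      apply MvPolynomial.algHom_ext
      rintro (i | i) <;> rw [aeval_X] <;> rfl
    rw [e]
    rfl
  have hunit : IsUnit (algebraMap (CoordRing c) (Chart c)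
      (Ideal.Quotient.mk (chartIdeal c) (den c))) :=
    IsLocalization.map_units (Chart c)
      (⟨_, Submonoid.mem_powers (Ideal.Quotient.mk (chartIdeal c) (den c))⟩ :
        Submonoid.powers (Ideal.Quotient.mk (chartIdeal c) (den c)))
  have hH : aeval (aff fun i => (Ideal.Quotient.mk (chartIdeal c) (MvPolynomial.X (.inl i)) :
      CoordRing c)) (cH c 0 0) = Ideal.Quotient.mk (chartIdeal c)
        (aeval (aff fun i => MvPolynomial.X (.inl i)) (cH c 0 0)) := by
    have e := aff_map (Ideal.Quotient.mkₐ K (chartIdeal c))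
      fun i => (MvPolynomial.X (.inl i) : MvPolynomial (Fin 3 ⊕ Fin 3) K)
    have e2 := comp_aeval_apply (aff fun i =>
      (MvPolynomial.X (.inl i) : MvPolynomial (Fin 3 ⊕ Fin 3) K))
      (Ideal.Quotient.mkₐ K (chartIdeal c)) (cH c 0 0)
    rw [e] at e2
    exact e2.symm
  have hG : aeval (aff fun i => (Ideal.Quotient.mk (chartIdeal c) (MvPolynomial.X (.inr i)) :
      CoordRing c)) (cG c 0 0) = Ideal.Quotient.mk (chartIdeal c)
        (aeval (aff fun i => MvPolynomial.X (.inr i)) (cG c 0 0)) := by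
    have e := aff_map (Ideal.Quotient.mkₐ K (chartIdeal c))
      fun i => (MvPolynomial.X (.inr i) : MvPolynomial (Fin 3 ⊕ Fin 3) K)
    have e2 := comp_aeval_apply (aff fun i =>
      (MvPolynomial.X (.inr i) : MvPolynomial (Fin 3 ⊕ Fin 3) K))
      (Ideal.Quotient.mkₐ K (chartIdeal c)) (cG c 0 0)
    rw [e] at e2
    exact e2.symm
  have hden : Ideal.Quotient.mk (chartIdeal c) (den c) =
      Ideal.Quotient.mk (chartIdeal c) (aeval (aff fun i => MvPolynomial.X (.inl i)) (cH c 0 0)) *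
        Ideal.Quotient.mk (chartIdeal c)
          (aeval (aff fun i => MvPolynomial.X (.inr i)) (cG c 0 0)) := by
    rw [← map_mul]
    rfl
  replace hunit : IsUnit (algebraMap (CoordRing c) (Chart c) (Ideal.Quotient.mk (chartIdeal c)
      (aeval (aff fun i => MvPolynomial.X (.inl i)) (cH c 0 0))) *
      algebraMap (CoordRing c) (Chart c) (Ideal.Quotient.mk (chartIdeal c)
      (aeval (aff fun i => MvPolynomial.X (.inr i)) (cG c 0 0)))) := by
    have e := congrArg (algebraMap (CoordRing c) (Chart c)) hden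
    rw [map_mul] at e
    rw [← e]
    exact hunit
  -- first case
  by_cases hN : N = 0
  · obtain ⟨n, hn⟩ := hN2 hN
    have h1 := hn (CoordRing c) _ _ htaut
    rw [hval, hH] at h1
    have h2 := congrArg (algebraMap (CoordRing c) (Chart c)) h1
    rw [map_mul, map_pow, map_zero] at h2
    exact ((isUnit_of_mul_isUnit_left hunit).pow n).mul_right_eq_zero.mp h2
  by_cases hN' : N' = 0
  · obtain ⟨n, hn⟩ := hN2' hN'
    have h1 := hn (CoordRing c) _ _ ((onX_swap c _ _).mpr htaut)
    have h3 : cH (fun e => c (swI e)) 0 0 = cG c 0 0 := (cG_eq_cH c 0 0).symm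
    rw [h3, hren, hval, hG] at h1
    have h2 := congrArg (algebraMap (CoordRing c) (Chart c)) h1
    rw [map_mul, map_pow, map_zero] at h2
    exact ((isUnit_of_mul_isUnit_right hunit).pow n).mul_right_eq_zero.mp h2
  exfalso
  obtain ⟨m, h, hh, hh0, hhX⟩ := exists_form (k := k) X hX0 N hN
    fun i => hN1 Ω _ _ (hon' i) (hF i)
  obtain ⟨m', g, hg, hg0, hgY⟩ := exists_form (k := k) Y hY0 N' hN'
    fun i => hN1' Ω _ _ ((onX_swap c _ _).mpr (hon' i)) (by rw [hren]; exact hF i)
  have hQ := pQ_symm fun e => algebraMap K k (c e)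
  have hQ' := pQ_symm' fun e => algebraMap K k (c e)
  refine Pool.Agent.Helper47.NI.closure (two_ne_zero) (by norm_num) (by norm_num)
    (dbl4 (pL fun e => algebraMap K k (c e)) (pL' fun e => algebraMap K k (c e))
      (pQ fun e => algebraMap K k (c e)) hQ hQ')
    (Pool.Agent.Helper63.NPD.dense37 _ _ hcond) (Pool.Agent.Helper63.NPD.dense37_swap _ _ hcond)
    X Y s t hs ht ?_ ?_ fX fY hh hg hh0 hg0 hhX hgY
  · intro i
    obtain ⟨l, hl⟩ := hX i
    refine ⟨l, fun p => ?_⟩
    have := aeval_cG_base (L := k) c (Y i) p.1 p.2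
    rw [hl p.1 p.2] at this
    exact this
  · intro i
    obtain ⟨l, hl⟩ := hY i
    refine ⟨l, fun p => ?_⟩
    have := aeval_cH_base (L := k) c (X i) p.1 p.2
    rw [hl p.1 p.2] at this
    exact this

end Pool.Agent.Helper92.CY
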