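import Mathlib
import Pool.Agent.Helper92.CY.Key

/-!
# The orbit of the curve, in the coordinates of the given complete intersection
-/

namespace Pool.Agent.Helper92.CY

open MvPolynomial Pool.Agent.Helper37.RP Pool.Agent.Helper76.CY

section lin

variable {R : Type*} [CommRing R]

theorem inv_pair (M M' : Matrix (Fin 4) (Fin 4) R) (hM : M' * M = 1) (G : Matrix (Fin 4) (Fin 4) R)
    (l : R) (u v u' v' : Fin 4 → R) (hu : M'.mulVec u = u') (hv : M'.mulVec v = v')
    (h : M * G * M.transpose = Matrix.of fun a b => l * (u a * v b + u b * v a)) (a b : Fin 4) :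
    G a b = l * (u' a * v' b + u' b * v' a) := by
  have e : G = M' * (M * G * M.transpose) * M'.transpose := by
    have e1 : M' * (M * G * M.transpose) * M'.transpose = (M' * M) * G * (M' * M).transpose := by
      rw [Matrix.transpose_mul]
      simp only [Matrix.mul_assoc]
    rw [e1, hM, Matrix.transpose_one, Matrix.mul_one, Matrix.one_mul]
  have e2 := congrFun (congrFun e a) b
  rw [h] at e2
  rw [e2, ← hu, ← hv]
  simp only [Matrix.mul_apply, Matrix.of_apply, Matrix.transpose_apply, Matrix.mulVec, dotProduct,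
    Fin.sum_univ_four]
  ring

end lin

section relprime

variable {k : Type*} [Field k]

/-- Linear substitution. -/
noncomputable def subst (M : Matrix (Fin 4) (Fin 4) k) :
    MvPolynomial (Fin 4) k →ₐ[k] MvPolynomial (Fin 4) k :=
  aeval fun i => ∑ j, C (M i j) * X j

theorem aeval_subst {S : Type*} [CommRing S] [Algebra k S] (M : Matrix (Fin 4) (Fin 4) k)
    (v : Fin 4 → S) (F : MvPolynomial (Fin 4) k) :
    aeval v (subst M F) = aeval ((M.map (algebraMap k S)).mulVec v) F := by
  rw [subst, comp_aeval_apply]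
  congr 2
  funext i
  simp [Matrix.mulVec, dotProduct]

theorem subst_subst (M N : Matrix (Fin 4) (Fin 4) k) (h : M * N = 1) (F : MvPolynomial (Fin 4) k) :
    subst N (subst M F) = F := by
  have e : (subst N).comp (subst M) = AlgHom.id k _ := by
    apply MvPolynomial.algHom_ext
    intro i
    have e0 : subst M (X i) = ∑ j, C (M i j) * X j := aeval_X _ _
    rw [AlgHom.comp_apply, e0, map_sum, AlgHom.id_apply]
    have e1 : ∀ j, subst N (C (M i j) * X j) = ∑ l, C (M i j * N j l) * X l := by
      intro j
      rw [map_mul, subst, algHom_C, aeval_X, algebraMap_eq, Finset.mul_sum]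
      refine Finset.sum_congr rfl fun l _ => ?_
      rw [map_mul]
      ring
    have e2 : ∀ l, ∑ j, C (M i j * N j l) * (X l : MvPolynomial (Fin 4) k) =
        C ((1 : Matrix (Fin 4) (Fin 4) k) i l) * X l := by
      intro l
      rw [← Finset.sum_mul, ← map_sum, ← h, Matrix.mul_apply]
    rw [Finset.sum_congr rfl fun j _ => e1 j, Finset.sum_comm, Finset.sum_congr rfl fun l _ => e2 l]
    simp [Matrix.one_apply]
  exact DFunLike.congr_fun e F

theorem subst_hom {M : Matrix (Fin 4) (Fin 4) k} {F : MvPolynomial (Fin 4) k} {e : ℕ}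
    (hF : F.IsHomogeneous e) : (subst M F).IsHomogeneous e := by
  have h1 : ∀ i : Fin 4, (∑ j, C (M i j) * X j : MvPolynomial (Fin 4) k).IsHomogeneous 1 := by
    intro i
    refine IsHomogeneous.sum _ _ _ fun j _ => ?_
    have := (isHomogeneous_C (Fin 4) (M i j)).mul (isHomogeneous_X k j)
    rwa [zero_add] at this
  have := hF.aeval (fun i => ∑ j, C (M i j) * X j) h1
  rwa [one_mul] at this

theorem subst_relprime {M N : Matrix (Fin 4) (Fin 4) k} (h : M * N = 1)
    {F G : MvPolynomial (Fin 4) k} (hFG : IsRelPrime F G) :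
    IsRelPrime (subst M F) (subst M G) := by
  intro d hd1 hd2
  have h1 : subst N d ∣ F := by
    have := map_dvd (subst N) hd1
    rwa [subst_subst M N h] at this
  have h2 : subst N d ∣ G := by
    have := map_dvd (subst N) hd2
    rwa [subst_subst M N h] at this
  have h3 := (hFG h1 h2).map (subst M)
  rwa [subst_subst N M (mul_eq_one_comm.mp h)] at h3

end relprime

section orbit

variable {K L k Ω : Type} [Field K] [Field L] [Field k] [Field Ω] [Algebra K L] [Algebra L k]
  [Algebra K k] [Algebra k Ω] [Algebra L Ω] [Algebra K Ω] [IsScalarTower K L k]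
  [IsScalarTower L k Ω] [IsScalarTower K k Ω] [IsScalarTower K L Ω] [CharZero k] [IsAlgClosed k]

theorem Std.map {R R' : Type*} [CommRing R] [CommRing R'] [Algebra R R'] {d : Ix → R}
    (h : Std d) : Std fun e => algebraMap R R' (d e) := by
  obtain ⟨a1, a2, a3, a4, a5, a6, a7, a8, a9, a10, a11, a12, a13, a14, a15, a16⟩ := h
  constructor <;> simp only [pL_map, pL'_map, pQ_map]
  · intro j; rw [a1]; split_ifs <;> simp
  · intro j; rw [a2]; split_ifs <;> simp
  · rw [a3, map_one]
  · rw [a4, map_zero]
  · intro j; rw [a5]; split_ifs <;> simp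
  · intro j; rw [a6]; split_ifs <;> simp
  · rw [a7, map_zero]
  · rw [a8, map_zero]
  · intro j; rw [a9, map_zero]
  · intro j; rw [a10, map_zero]
  · rw [a11, map_zero]
  · rw [a12, map_zero]
  · rw [a13, map_one]
  · rw [a14, map_zero]
  · rw [a15, map_one]
  · rw [a16]; simp only [map_mul, map_sub, map_ofNat]

theorem map_q4 {R R' : Type*} [CommRing R] [CommRing R'] [Algebra R R'] (d : Ix → R) :
    (q4 d).map (algebraMap R R') = q4 fun e => algebraMap R R' (d e) := by
  simp only [q4, V1, V0, U2, pQ_map, Polynomial.map_sub, Polynomial.map_pow, Polynomial.map_add,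
    Polynomial.map_mul, Polynomial.map_C, Polynomial.map_X, Polynomial.map_ofNat, map_sub, map_add,
    map_mul, map_ofNat]

theorem natDegree_quad_le {R : Type*} [CommRing R] (a b c : R) :
    (Polynomial.C a + Polynomial.C b * Polynomial.X + Polynomial.C c * Polynomial.X ^ 2).natDegree
      ≤ 2 := by
  compute_degree

theorem q4_natDegree_le {R : Type*} [CommRing R] (d : Ix → R) : (q4 d).natDegree ≤ 4 := by
  unfold q4
  refine (Polynomial.natDegree_sub_le _ _).trans (max_le ?_ ?_)
  · refine Polynomial.natDegree_pow_le.trans ?_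
    have := natDegree_quad_le (4 * pQ d 0 1 0 3 - 2 * pQ d 0 0 2 3)
      (2 * pQ d 0 0 1 2 - 4 * pQ d 0 1 0 1 - 4 * pQ d 0 1 2 3 + 2 * pQ d 1 1 0 3)
      (4 * pQ d 0 1 1 2 - 2 * pQ d 1 1 2 3)
    unfold V1
    omega
  · refine Polynomial.natDegree_mul_le.trans ?_
    have h1 : (4 * U2 d).natDegree ≤ 2 := by
      refine Polynomial.natDegree_mul_le.trans ?_
      have h4 : (4 : Polynomial R).natDegree = 0 := by
        have : (4 : Polynomial R) = Polynomial.C 4 := (map_ofNat Polynomial.C 4).symm
        rw [this, Polynomial.natDegree_C]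
      have := natDegree_quad_le (pQ d 0 0 3 3) (2 * pQ d 0 1 3 3 - 2 * pQ d 0 0 1 3)
        (pQ d 0 0 1 1 - 4 * pQ d 0 1 1 3 + pQ d 1 1 3 3)
      unfold U2
      omega
    have h2 := natDegree_quad_le (pQ d 0 0 2 2 - 4 * pQ d 0 1 0 2 + pQ d 1 1 0 0)
      (2 * pQ d 0 1 2 2 - 2 * pQ d 1 1 0 2) (pQ d 1 1 2 2)
    have h3 : (V0 d).natDegree ≤ 2 := h2
    omega

theorem map_V1 {R R' : Type*} [CommRing R] [CommRing R'] [Algebra R R'] (d : Ix → R) :
    (V1 d).map (algebraMap R R') = V1 fun e => algebraMap R R' (d e) := by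
  simp only [V1, pQ_map, Polynomial.map_sub, Polynomial.map_pow, Polynomial.map_add,
    Polynomial.map_mul, Polynomial.map_C, Polynomial.map_X, Polynomial.map_ofNat, map_sub, map_add,
    map_mul, map_ofNat]

theorem map_U2 {R R' : Type*} [CommRing R] [CommRing R'] [Algebra R R'] (d : Ix → R) :
    (U2 d).map (algebraMap R R') = U2 fun e => algebraMap R R' (d e) := by
  simp only [U2, pQ_map, Polynomial.map_sub, Polynomial.map_pow, Polynomial.map_add,
    Polynomial.map_mul, Polynomial.map_C, Polynomial.map_X, Polynomial.map_ofNat, map_sub, map_add,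
    map_mul, map_ofNat]

theorem Gen.map {L k : Type*} [Field L] [Field k] [Algebra L k] {d : Ix → L} (h : Gen d) :
    Gen fun e => algebraMap L k (d e) := by
  have hinj := (algebraMap L k).injective
  have e1 : mm (fun e => algebraMap L k (d e)) = algebraMap L k (mm d) := by
    simp only [mm, pQ_map]
  have e2 : del (fun e => algebraMap L k (d e)) = algebraMap L k (del d) := by
    simp only [del, pQ_map, pL_map, map_sub, map_mul, map_ofNat]
  have e3 : F1 (fun e => algebraMap L k (d e)) = algebraMap L k (F1 d) := by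
    simp only [F1, pQ_map, pL_map, map_sub, map_add, map_mul, map_ofNat]
  have e4 : F2 (fun e => algebraMap L k (d e)) = algebraMap L k (F2 d) := by
    simp only [F2, pQ_map, map_sub, map_mul, map_ofNat]
  refine ⟨h.std.map, ?_, ?_, ?_, ?_, ?_, ?_⟩
  · rw [e1]
    exact (map_ne_zero_iff _ hinj).mpr h.hm
  · rw [e2]
    exact (map_ne_zero_iff _ hinj).mpr h.hd
  · rw [e1, e3, e4]
    intro h0
    apply h.he
    apply hinj
    rw [h0, map_mul, map_mul, map_ofNat]
  · rw [← map_q4, Polynomial.eval_map, Polynomial.eval₂_at_zero]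
    have := h.h0
    rw [← Polynomial.coeff_zero_eq_eval_zero] at this
    exact (map_ne_zero_iff _ hinj).mpr this
  · rw [← map_q4]
    exact h.sep.map
  · rw [← map_q4, Polynomial.natDegree_map]
    exact h.deg

end orbit

end Pool.Agent.Helper92.CY
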