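import Mathlib
import Pool.Agent.Helper92.CY.Orbit

/-!
# The orbit of the curve, in the coordinates of the given complete intersection (2)
-/

namespace Pool.Agent.Helper92.CY

open MvPolynomial Pool.Agent.Helper37.RP Pool.Agent.Helper76.CY

/-- Inverse substitution of a vector. -/
noncomputable def pull {L S : Type*} [Field L] [CommRing S] [Algebra L S]
    (h : Matrix (Fin 4) (Fin 4) L) (x : Fin 4 → S) : Fin 4 → S :=
  (h⁻¹.map (algebraMap L S)).mulVec x

theorem mulVec_pull {L S : Type*} [Field L] [CommRing S] [Algebra L S]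
    (h : Matrix (Fin 4) (Fin 4) L) (hh : h.det ≠ 0) (x : Fin 4 → S) :
    (h.map (algebraMap L S)).mulVec (pull h x) = x := by
  rw [pull, Matrix.mulVec_mulVec]
  have e : h.map (algebraMap L S) * h⁻¹.map (algebraMap L S) = 1 := by
    have := congrArg (fun m => m.map (algebraMap L S)) (Matrix.mul_nonsing_inv h
      (isUnit_iff_ne_zero.mpr hh))
    simp only [Matrix.map_mul] at this
    rw [this]
    exact Matrix.map_one _ (map_zero _) (map_one _)
  rw [e, Matrix.one_mulVec]

theorem inv_map_mul {L S : Type*} [Field L] [CommRing S] [Algebra L S]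
    (h : Matrix (Fin 4) (Fin 4) L) (hh : h.det ≠ 0) :
    h⁻¹.map (algebraMap L S) * h.map (algebraMap L S) = 1 := by
  have := congrArg (fun m => m.map (algebraMap L S)) (Matrix.nonsing_inv_mul h
    (isUnit_iff_ne_zero.mpr hh))
  simp only [Matrix.map_mul] at this
  rw [this]
  exact Matrix.map_one _ (map_zero _) (map_one _)

section

variable {K L k : Type} [Field K] [Field L] [Field k] [Algebra K L] [Algebra L k]
  [Algebra K k] [IsScalarTower K L k] [CharZero k]
  (c : Ix → K) (d : Ix → L) (h1 h2 : Matrix (Fin 4) (Fin 4) L) (τ : Matrix (Fin 2) (Fin 2) L)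
  (A B : Matrix (Fin 4) (Fin 4) L) (hd : Gen d) (hh1 : h1.det ≠ 0) (hh2 : h2.det ≠ 0)
  (hτ : τ.det ≠ 0) (hc : (fun e => algebraMap K L (c e)) = act d h1 h2 τ A B)

include hh1 hh2 hτ hc in
theorem pull_on {x y : Fin 4 → PowerSeries k} (h : OnX (fun e => algebraMap L k (d e)) x y) :
    OnX c (pull h1 x) (pull h2 y) := by
  rw [← onX_base (L := L) c, hc, Real.onX_act d h1 h2 τ A B (isUnit_iff_ne_zero.mpr hτ),
    mulVec_pull h1 hh1, mulVec_pull h2 hh2]
  exact (onX_base (L := k) d x y).mp h

include hh1 hh2 hτ hc in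
theorem pull_G {x x' y : Fin 4 → PowerSeries k}
    (h : ∀ i j, 2 * aeval y (cG (fun e => algebraMap L k (d e)) i j) =
      aeval y (cG (fun e => algebraMap L k (d e)) 0 0) * (x i * x' j + x j * x' i)) :
    ∃ l : PowerSeries k, (aeval y (cG (fun e => algebraMap L k (d e)) 0 0) ≠ 0 → l ≠ 0) ∧
      ∀ a b, aeval (pull h2 y) (cG c a b) =
      l * (pull h1 x a * pull h1 x' b + pull h1 x b * pull h1 x' a) := by
  have h3 := Real.cG_act (S := PowerSeries k) d h1 h2 τ A B (pull h2 y)
  rw [mulVec_pull h2 hh2, ← hc] at h3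
  refine ⟨algebraMap L (PowerSeries k) (h1.det ^ 2 * τ.det ^ 2) *
    (algebraMap k (PowerSeries k) 2⁻¹ * aeval y (cG (fun e => algebraMap L k (d e)) 0 0)),
    fun h0 => mul_ne_zero ?_ (mul_ne_zero ?_ h0), fun a b => ?_⟩
  · have hi : Function.Injective (algebraMap L (PowerSeries k)) :=
      (algebraMap L (PowerSeries k)).injective
    exact (map_ne_zero_iff _ hi).mpr (mul_ne_zero (pow_ne_zero 2 hh1) (pow_ne_zero 2 hτ))
  · have hi : Function.Injective (algebraMap k (PowerSeries k)) :=
      (algebraMap k (PowerSeries k)).injective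
    exact (map_ne_zero_iff _ hi).mpr (inv_ne_zero two_ne_zero)
  have h4 := inv_pair (h1.map (algebraMap L (PowerSeries k)))
    (h1⁻¹.map (algebraMap L (PowerSeries k))) (inv_map_mul h1 hh1)
    (Matrix.of fun i j => aeval (pull h2 y) (cG (fun e => algebraMap K L (c e)) i j))
    (algebraMap L (PowerSeries k) (h1.det ^ 2 * τ.det ^ 2) *
      (algebraMap k (PowerSeries k) 2⁻¹ * aeval y (cG (fun e => algebraMap L k (d e)) 0 0)))
    x x' _ _ rfl rfl (by
      rw [h3]
      ext i j
      rw [Matrix.smul_apply, Matrix.of_apply, Matrix.of_apply, smul_eq_mul, ← aeval_cG_base (L := k)]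
      have h5 : algebraMap k (PowerSeries k) 2⁻¹ * 2 = 1 := by
        have : (2 : PowerSeries k) = algebraMap k (PowerSeries k) 2 := (map_ofNat _ 2).symm
        rw [this, ← map_mul, inv_mul_cancel₀ two_ne_zero, map_one]
      have h6 : aeval y (cG (fun e => algebraMap L k (d e)) i j) =
          algebraMap k (PowerSeries k) 2⁻¹ * (2 * aeval y (cG (fun e => algebraMap L k (d e)) i j))
          := by
        rw [← mul_assoc, h5, one_mul]
      rw [h6, h i j]
      ring) a b
  rw [Matrix.of_apply, aeval_cG_base] at h4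
  exact h4

include hh1 hh2 hτ hc in
theorem pull_H {x y y' : Fin 4 → PowerSeries k}
    (h : ∀ i j, 2 * aeval x (cH (fun e => algebraMap L k (d e)) i j) =
      aeval x (cH (fun e => algebraMap L k (d e)) 0 0) * (y i * y' j + y j * y' i)) :
    ∃ l : PowerSeries k, (aeval x (cH (fun e => algebraMap L k (d e)) 0 0) ≠ 0 → l ≠ 0) ∧
      ∀ a b, aeval (pull h1 x) (cH c a b) =
      l * (pull h2 y a * pull h2 y' b + pull h2 y b * pull h2 y' a) := by
  have h3 := Real.cH_act (S := PowerSeries k) d h1 h2 τ A B (pull h1 x)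
  rw [mulVec_pull h1 hh1, ← hc] at h3
  refine ⟨algebraMap L (PowerSeries k) (h2.det ^ 2 * τ.det ^ 2) *
    (algebraMap k (PowerSeries k) 2⁻¹ * aeval x (cH (fun e => algebraMap L k (d e)) 0 0)),
    fun h0 => mul_ne_zero ?_ (mul_ne_zero ?_ h0), fun a b => ?_⟩
  · have hi : Function.Injective (algebraMap L (PowerSeries k)) :=
      (algebraMap L (PowerSeries k)).injective
    exact (map_ne_zero_iff _ hi).mpr (mul_ne_zero (pow_ne_zero 2 hh2) (pow_ne_zero 2 hτ))
  · have hi : Function.Injective (algebraMap k (PowerSeries k)) :=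
      (algebraMap k (PowerSeries k)).injective
    exact (map_ne_zero_iff _ hi).mpr (inv_ne_zero two_ne_zero)
  have h4 := inv_pair (h2.map (algebraMap L (PowerSeries k)))
    (h2⁻¹.map (algebraMap L (PowerSeries k))) (inv_map_mul h2 hh2)
    (Matrix.of fun i j => aeval (pull h1 x) (cH (fun e => algebraMap K L (c e)) i j))
    (algebraMap L (PowerSeries k) (h2.det ^ 2 * τ.det ^ 2) *
      (algebraMap k (PowerSeries k) 2⁻¹ * aeval x (cH (fun e => algebraMap L k (d e)) 0 0)))
    y y' _ _ rfl rfl (by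
      rw [h3]
      ext i j
      rw [Matrix.smul_apply, Matrix.of_apply, Matrix.of_apply, smul_eq_mul, ← aeval_cH_base (L := k)]
      have h5 : algebraMap k (PowerSeries k) 2⁻¹ * 2 = 1 := by
        have : (2 : PowerSeries k) = algebraMap k (PowerSeries k) 2 := (map_ofNat _ 2).symm
        rw [this, ← map_mul, inv_mul_cancel₀ two_ne_zero, map_one]
      have h6 : aeval x (cH (fun e => algebraMap L k (d e)) i j) =
          algebraMap k (PowerSeries k) 2⁻¹ * (2 * aeval x (cH (fun e => algebraMap L k (d e)) i j))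
          := by
        rw [← mul_assoc, h5, one_mul]
      rw [h6, h i j]
      ring) a b
  rw [Matrix.of_apply, aeval_cH_base] at h4
  exact h4

end

end Pool.Agent.Helper92.CY
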