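import Mathlib
import Pool.Agent.Helper92.CY.Orbit2

/-!
# The points of the orbit are dense
-/

namespace Pool.Agent.Helper92.CY

open MvPolynomial Pool.Agent.Helper37.RP Pool.Agent.Helper76.CY

theorem hom_scale {K S : Type*} [Field K] [Field S] [Algebra K S] {n : ℕ}
    {F : MvPolynomial (Fin 4) K} (hF : F.IsHomogeneous n) (r : S) (v : Fin 4 → S) :
    aeval (fun a => r * v a) F = r ^ n * aeval v F := by
  rw [aeval_def, aeval_def, eval₂_eq, eval₂_eq, Finset.mul_sum]
  refine Finset.sum_congr rfl fun a ha => ?_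
  have hn := hF.degree_eq_sum_deg_support ha
  simp only [mul_pow]
  rw [Finset.prod_mul_distrib, Finset.prod_pow_eq_pow_sum, ← hn]
  ring

theorem cG_hom {K : Type*} [Field K] (c : Ix → K) (i j : Fin 4) : (cG c i j).IsHomogeneous 6 :=
  isHomogeneous_chow4 _ _ _ _ _

theorem cH_hom {K : Type*} [Field K] (c : Ix → K) (i j : Fin 4) : (cH c i j).IsHomogeneous 6 :=
  isHomogeneous_chow4 _ _ _ _ _

theorem inv00_ne {L : Type*} [Field L] (h : Matrix (Fin 4) (Fin 4) L) (hh : h.det ≠ 0)
    (ha : h.adjugate 0 0 ≠ 0) : h⁻¹ 0 0 ≠ 0 := by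
  rw [Matrix.inv_def, Matrix.smul_apply, smul_eq_mul]
  refine mul_ne_zero ?_ ha
  rw [Ring.inverse_eq_inv']
  exact inv_ne_zero hh

theorem constantCoeff_pull {L k : Type*} [Field L] [Field k] [Algebra L k]
    (h : Matrix (Fin 4) (Fin 4) L) (x : Fin 4 → PowerSeries k) (hx0 : x 0 = 1)
    (hx : ∀ i, i ≠ 0 → PowerSeries.constantCoeff (x i) = 0) :
    PowerSeries.constantCoeff (pull h x 0) = algebraMap L k (h⁻¹ 0 0) := by
  have e : ∀ z : L, algebraMap L (PowerSeries k) z = PowerSeries.C (algebraMap L k z) := by
    intro z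
    exact PowerSeries.algebraMap_apply
  simp only [pull, Matrix.mulVec, dotProduct, Matrix.map_apply, Fin.sum_univ_four, map_add,
    map_mul, e, PowerSeries.constantCoeff_C, hx0, map_one, mul_one,
    hx 1 (by decide), hx 2 (by decide), hx 3 (by decide), mul_zero, add_zero]

section field

variable {K L k Ω : Type} [Field K] [Field L] [Field k] [Field Ω] [Algebra K L] [Algebra L k]
  [Algebra K k] [Algebra k Ω] [Algebra L Ω] [Algebra K Ω] [IsScalarTower K L k]
  [IsScalarTower L k Ω] [IsScalarTower K k Ω] [IsScalarTower K L Ω] [CharZero k] [IsAlgClosed k]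

theorem aeval_mem (E : IntermediateField L Ω) {σ : Type*} (v : σ → Ω) (hv : ∀ i, v i ∈ E)
    (F : MvPolynomial σ K) : aeval v F ∈ E := by
  induction F using MvPolynomial.induction_on with
  | C a =>
    rw [algHom_C, IsScalarTower.algebraMap_apply K L Ω]
    exact E.algebraMap_mem _
  | add p q hp hq =>
    rw [map_add]
    exact E.add_mem hp hq
  | mul_X p i hp =>
    rw [map_mul, aeval_X]
    exact E.mul_mem hp (hv i)

/-- The power series which lie in the subfield `E`. -/
noncomputable def serE (j : PowerSeries k →ₐ[k] Ω) (E : IntermediateField L Ω) :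
    Subring (PowerSeries k) := E.toSubring.comap (j : PowerSeries k →+* Ω)

theorem mem_serE (j : PowerSeries k →ₐ[k] Ω) (E : IntermediateField L Ω) (p : PowerSeries k) :
    p ∈ serE j E ↔ j p ∈ E := Iff.rfl

theorem serE_C (j : PowerSeries k →ₐ[k] Ω) (E : IntermediateField L Ω) (z : L) :
    PowerSeries.C (algebraMap L k z) ∈ serE j E := by
  rw [mem_serE]
  have e : j (PowerSeries.C (algebraMap L k z)) = algebraMap L Ω z := by
    have := j.commutes (algebraMap L k z)
    rw [← IsScalarTower.algebraMap_apply L k Ω] at this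
    exact this
  rw [e]
  exact E.algebraMap_mem _

theorem serE_inv (j : PowerSeries k →ₐ[k] Ω) (E : IntermediateField L Ω) (p : PowerSeries k)
    (hp : p ∈ serE j E) : p⁻¹ ∈ serE j E := by
  rw [mem_serE] at hp ⊢
  by_cases h : PowerSeries.constantCoeff p = 0
  · rw [PowerSeries.inv_eq_zero.mpr h, map_zero]
    exact E.zero_mem
  · have h1 := congrArg j (PowerSeries.mul_inv_cancel p h)
    rw [map_mul, map_one] at h1
    rw [eq_inv_of_mul_eq_one_right h1]
    exact E.inv_mem hp

theorem j_poly (j : PowerSeries k →ₐ[k] Ω) (p : Polynomial L) :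
    j ((p.map (algebraMap L k) : Polynomial k) : PowerSeries k) =
      Polynomial.aeval (j PowerSeries.X) p := by
  induction p using Polynomial.induction_on' with
  | add p q hp hq =>
    rw [Polynomial.map_add, Polynomial.coe_add, map_add, hp, hq, map_add]
  | monomial n a =>
    rw [Polynomial.map_monomial, ← Polynomial.C_mul_X_pow_eq_monomial, Polynomial.coe_mul,
      Polynomial.coe_C, Polynomial.coe_pow, Polynomial.coe_X, map_mul, map_pow,
      ← Polynomial.C_mul_X_pow_eq_monomial, map_mul, map_pow, Polynomial.aeval_X,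
      Polynomial.aeval_C]
    congr 1
    have := j.commutes (algebraMap L k a)
    rw [← IsScalarTower.algebraMap_apply L k Ω] at this
    exact this

theorem j_transcendental (j : PowerSeries k →ₐ[k] Ω) (hj : Function.Injective j) :
    Transcendental L (j PowerSeries.X) := by
  rw [transcendental_iff]
  intro p hp
  rw [← j_poly] at hp
  have h1 : ((p.map (algebraMap L k) : Polynomial k) : PowerSeries k) = 0 := by
    apply hj
    rw [hp, map_zero]
  have h2 : p.map (algebraMap L k) = 0 := by
    rw [← Polynomial.coe_eq_zero_iff]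
    exact h1
  exact (Polynomial.map_eq_zero_iff (algebraMap L k).injective).mp h2

end field

end Pool.Agent.Helper92.CY
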