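import Mathlib
import Pool.Agent.Helper92.CY.Orbit3

/-!
# The points of the orbit are dense (2)
-/

namespace Pool.Agent.Helper92.CY

open MvPolynomial Pool.Agent.Helper37.RP Pool.Agent.Helper76.CY

/-- The involution of the index set over `y`. -/
def ixs (p : ℤ × Bool) : ℤ × Bool := (p.1, !p.2)

/-- The involution of the index set over `x`. -/
def ixt (p : ℤ × Bool) : ℤ × Bool := if p.2 then (p.1 - 1, false) else (p.1 + 1, true)

theorem ixs_inj : Function.Injective ixs := by
  intro p q h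
  obtain ⟨a, b⟩ := p
  obtain ⟨a', b'⟩ := q
  simp only [ixs, Prod.mk.injEq] at h
  rw [h.1, Bool.not_inj h.2]

theorem ixt_inj : Function.Injective ixt := by
  intro p q h
  obtain ⟨a, b⟩ := p
  obtain ⟨a', b'⟩ := q
  rcases b <;> rcases b' <;> simp [ixt] at h ⊢ <;> exact h

section field

variable {K L k Ω : Type} [Field K] [Field L] [Field k] [Field Ω] [Algebra K L] [Algebra L k]
  [Algebra K k] [Algebra k Ω] [Algebra L Ω] [Algebra K Ω] [IsScalarTower K L k]
  [IsScalarTower L k Ω] [IsScalarTower K k Ω] [IsScalarTower K L Ω] [CharZero k] [IsAlgClosed k]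

theorem fin_pull {ι : Type} (j : PowerSeries k →ₐ[k] Ω) (hj : Function.Injective j)
    (h : Matrix (Fin 4) (Fin 4) L) (hh : h.det ≠ 0) (X : ι → Fin 4 → PowerSeries k)
    (hfin : ∀ (G1 G2 : MvPolynomial (Fin 4) k) (e1 e2 : ℕ), G1.IsHomogeneous e1 →
      G2.IsHomogeneous e2 → IsRelPrime G1 G2 → {i | aeval (X i) G1 = 0 ∧ aeval (X i) G2 = 0}.Finite)
    (F1 F2 : MvPolynomial (Fin 4) k) (e1 e2 : ℕ) (h1 : F1.IsHomogeneous e1)
    (h2 : F2.IsHomogeneous e2) (h12 : IsRelPrime F1 F2) :
    {i | aeval (fun a => j (pull h (X i) a)) F1 = 0 ∧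
      aeval (fun a => j (pull h (X i) a)) F2 = 0}.Finite := by
  have hM : h⁻¹.map (algebraMap L k) * h.map (algebraMap L k) = 1 := inv_map_mul h hh
  have key : ∀ (F : MvPolynomial (Fin 4) k) (i : ι),
      aeval (fun a => j (pull h (X i) a)) F = j (aeval (X i) (subst (h⁻¹.map (algebraMap L k)) F)) :=
    by
    intro F i
    rw [aeval_subst, ← comp_aeval_apply]
    congr 3
    funext a
    rw [pull]
    congr 1
    ext a b
    rw [Matrix.map_apply, Matrix.map_apply, Matrix.map_apply,
      ← IsScalarTower.algebraMap_apply L k (PowerSeries k)]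
  refine (hfin _ _ e1 e2 (subst_hom h1) (subst_hom h2) (subst_relprime hM h12)).subset ?_
  rintro i ⟨h3, h4⟩
  rw [key] at h3 h4
  exact ⟨hj (by rw [h3, map_zero]), hj (by rw [h4, map_zero])⟩

end field

end Pool.Agent.Helper92.CY
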