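import Mathlib
import Pool.Agent.Helper92.CY.Orbit4

/-!
# Points over a number field are dense
-/

namespace Pool.Agent.Helper92.CY

open MvPolynomial Pool.Agent.Helper37.RP Pool.Agent.Helper76.CY

section field

variable {K L k Ω : Type} [Field K] [Field L] [Field k] [Field Ω] [Algebra K L] [Algebra L k]
  [Algebra K k] [Algebra k Ω] [Algebra L Ω] [Algebra K Ω] [IsScalarTower K L k]
  [IsScalarTower L k Ω] [IsScalarTower K k Ω] [IsScalarTower K L Ω] [CharZero k] [IsAlgClosed k]

theorem poly_mem (E : IntermediateField L Ω) (z : Ω) (hz : z ∈ E) (p : Polynomial L) :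
    Polynomial.aeval z p ∈ E := by
  induction p using Polynomial.induction_on' with
  | add p q hp hq =>
    rw [map_add]
    exact E.add_mem hp hq
  | monomial n a =>
    rw [Polynomial.aeval_monomial]
    exact E.mul_mem (E.algebraMap_mem a) (E.toSubalgebra.pow_mem hz n)

theorem key_zero (c : Ix → K) (d : Ix → L) (h1 h2 : Matrix (Fin 4) (Fin 4) L)
    (τ : Matrix (Fin 2) (Fin 2) L) (A B : Matrix (Fin 4) (Fin 4) L) (hd : Gen d)
    (hh1 : h1.det ≠ 0) (hh2 : h2.det ≠ 0) (hτ : τ.det ≠ 0) (ha1 : h1.adjugate 0 0 ≠ 0)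
    (ha2 : h2.adjugate 0 0 ≠ 0) (hc : (fun e => algebraMap K L (c e)) = act d h1 h2 τ A B)
    (hcond : Pool.Agent.Helper63.NPD.Cond4 (pL fun e => algebraMap K k (c e))
      (pL' fun e => algebraMap K k (c e)) (pQ fun e => algebraMap K k (c e)))
    (hinf : {p : L × L | p.2 ^ 2 = (q4 d).eval p.1}.Infinite)
    (j : PowerSeries k →ₐ[k] Ω) (hj : Function.Injective j) :
    Nontrivial (Chart c) ∧ ∀ F : MvPolynomial (Fin 3 ⊕ Fin 3) K, (∀ φ : Chart c →ₐ[K] L,
      φ (algebraMap (CoordRing c) (Chart c) (Ideal.Quotient.mk _ F)) = 0) →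
    algebraMap (CoordRing c) (Chart c) (Ideal.Quotient.mk _ F) = 0 := by
  classical
  have h2L : (2 : L) ≠ 0 := by
    intro h
    have := congrArg (algebraMap L k) h
    rw [map_ofNat, map_zero] at this
    exact two_ne_zero this
  have h2P : (2 : PowerSeries k) ≠ 0 := by
    intro h
    have := congrArg PowerSeries.constantCoeff h
    rw [map_ofNat, map_zero] at this
    exact two_ne_zero this
  have hdk : Gen fun e => algebraMap L k (d e) := hd.map
  obtain ⟨u, w, hu, hw, hnear⟩ := Real.exists_curve hdk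
  obtain ⟨X, Y, hX00, hY00, hN, hc1, hsx, hty, hty', fX, fY, hS⟩ := Real.chain hdk hnear (by
    show PowerSeries.coeff 1 (PowerSeries.X : PowerSeries k) = 1
    exact PowerSeries.coeff_one_X)
  -- relations
  have hG0 : ∀ i, aeval (Y i) (cG (fun e => algebraMap L k (d e)) 0 0) ≠ 0 := by
    intro i h0
    have := (Real.jet_G hdk.std two_ne_zero (hN i)).1
    rw [h0, map_zero] at this
    exact two_ne_zero this.symm
  have hH0 : ∀ i, aeval (X i) (cH (fun e => algebraMap L k (d e)) 0 0) ≠ 0 := by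
    intro i h0
    have := (Real.jet_H hdk.std two_ne_zero (hN i)).1
    rw [h0, map_zero] at this
    exact mul_ne_zero two_ne_zero (mul_ne_zero (mul_ne_zero two_ne_zero hdk.hm) hdk.hd) this.symm
  have hrx : ∀ i, ∃ l : PowerSeries k, l ≠ 0 ∧ ∀ a b, aeval (pull h2 (Y i)) (cG c a b) =
      l * (pull h1 (X i) a * pull h1 (X (ixs i)) b + pull h1 (X i) b * pull h1 (X (ixs i)) a) := by
    rintro ⟨n, b⟩
    obtain ⟨-, -, hrel, -, -⟩ := Real.step_x hdk.std two_ne_zero (hN (n, b))
    obtain ⟨l, hl0, hl⟩ := pull_G c d h1 h2 τ A B hh1 hh2 hτ hc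
      (x := X (n, b)) (x' := X (ixs (n, b))) (y := Y (n, b)) (by
        intro i j
        rw [hrel i j]
        show _ = _ * (X (n, b) i * X (n, !b) j + X (n, b) j * X (n, !b) i)
        rw [(hsx n b).1])
    exact ⟨l, hl0 (hG0 _), hl⟩
  have hry : ∀ i, ∃ l : PowerSeries k, l ≠ 0 ∧ ∀ a b, aeval (pull h1 (X i)) (cH c a b) =
      l * (pull h2 (Y i) a * pull h2 (Y (ixt i)) b + pull h2 (Y i) b * pull h2 (Y (ixt i)) a) := by
    rintro ⟨n, b⟩
    obtain ⟨-, -, hrel, -⟩ := Real.step_y hdk.std two_ne_zero hdk.hm hdk.hd (hN (n, b))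
    obtain ⟨l, hl0, hl⟩ := pull_H c d h1 h2 τ A B hh1 hh2 hτ hc
      (x := X (n, b)) (y := Y (n, b)) (y' := Y (ixt (n, b))) (by
        intro i j
        rw [hrel i j]
        rcases b with _ | _
        · show _ = _ * (Y (n, false) i * Y (n + 1, true) j + Y (n, false) j * Y (n + 1, true) i)
          rw [(hty n).1]
        · show _ = _ * (Y (n, true) i * Y (n - 1, false) j + Y (n, true) j * Y (n - 1, false) i)
          rw [(hty' n).1])
    exact ⟨l, hl0 (hH0 _), hl⟩
  -- first coordinates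
  have hx0 : ∀ i, pull h1 (X i) 0 ≠ 0 := by
    intro i h0
    have := constantCoeff_pull h1 (X i) (hN i).x0 (hN i).cx
    rw [h0, map_zero] at this
    exact inv00_ne h1 hh1 ha1 ((map_eq_zero_iff _ (algebraMap L k).injective).mp this.symm)
  have hy0 : ∀ i, pull h2 (Y i) 0 ≠ 0 := by
    intro i h0
    have := constantCoeff_pull h2 (Y i) (hN i).y0 (hN i).cy
    rw [h0, map_zero] at this
    exact inv00_ne h2 hh2 ha2 ((map_eq_zero_iff _ (algebraMap L k).injective).mp this.symm)
  have hjne : ∀ p : PowerSeries k, p ≠ 0 → j p ≠ 0 := fun p hp => (map_ne_zero_iff _ hj).mpr hp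
  have hjx0 : ∀ i, j (pull h1 (X i) 0) ≠ 0 := fun i => hjne _ (hx0 i)
  have hjy0 : ∀ i, j (pull h2 (Y i) 0) ≠ 0 := fun i => hjne _ (hy0 i)
  have hon : ∀ i, OnX c (fun a => j (pull h1 (X i) a)) (fun a => j (pull h2 (Y i) a)) := by
    intro i
    exact onX_map (j.restrictScalars K) c _ _ (pull_on c d h1 h2 τ A B hh1 hh2 hτ hc (hN i).on)
  have haffX : ∀ i, aff (fun b : Fin 3 => j (pull h1 (X i) b.succ) / j (pull h1 (X i) 0)) =
      fun a => (j (pull h1 (X i) 0))⁻¹ * j (pull h1 (X i) a) := by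
    intro i
    funext a
    refine Fin.cases ?_ (fun b => ?_) a
    · show (1 : Ω) = _
      rw [inv_mul_cancel₀ (hjx0 i)]
    · show j (pull h1 (X i) b.succ) / j (pull h1 (X i) 0) = _
      rw [div_eq_mul_inv, mul_comm]
  have haffY : ∀ i, aff (fun b : Fin 3 => j (pull h2 (Y i) b.succ) / j (pull h2 (Y i) 0)) =
      fun a => (j (pull h2 (Y i) 0))⁻¹ * j (pull h2 (Y i) a) := by
    intro i
    funext a
    refine Fin.cases ?_ (fun b => ?_) a
    · show (1 : Ω) = _
      rw [inv_mul_cancel₀ (hjy0 i)]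
    · show j (pull h2 (Y i) b.succ) / j (pull h2 (Y i) 0) = _
      rw [div_eq_mul_inv, mul_comm]
  have hon' : ∀ i, OnX c
      (aff fun b : Fin 3 => j (pull h1 (X i) b.succ) / j (pull h1 (X i) 0))
      (aff fun b : Fin 3 => j (pull h2 (Y i) b.succ) / j (pull h2 (Y i) 0)) := by
    intro i
    rw [haffX, haffY]
    exact onX_smul c _ _ _ _ (hon i)
  have huH : ∀ i, IsUnit (aeval (aff fun b : Fin 3 => j (pull h1 (X i) b.succ) /
      j (pull h1 (X i) 0)) (cH c 0 0)) := by
    intro i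
    rw [isUnit_iff_ne_zero, haffX, hom_scale (cH_hom c 0 0)]
    refine mul_ne_zero (pow_ne_zero 6 (inv_ne_zero (hjx0 i))) ?_
    obtain ⟨l, hl0, hl⟩ := hry i
    have e := comp_aeval_apply (pull h1 (X i)) (j.restrictScalars K) (cH c 0 0)
    rw [hl 0 0] at e
    have e2 : aeval (fun a => j (pull h1 (X i) a)) (cH c 0 0) = j (l * (pull h2 (Y i) 0 *
      pull h2 (Y (ixt i)) 0 + pull h2 (Y i) 0 * pull h2 (Y (ixt i)) 0)) := e.symm
    rw [e2]
    refine hjne _ (mul_ne_zero hl0 ?_)
    rw [← two_mul]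
    exact mul_ne_zero h2P (mul_ne_zero (hy0 _) (hy0 _))
  have huG : ∀ i, IsUnit (aeval (aff fun b : Fin 3 => j (pull h2 (Y i) b.succ) /
      j (pull h2 (Y i) 0)) (cG c 0 0)) := by
    intro i
    rw [isUnit_iff_ne_zero, haffY, hom_scale (cG_hom c 0 0)]
    refine mul_ne_zero (pow_ne_zero 6 (inv_ne_zero (hjy0 i))) ?_
    obtain ⟨l, hl0, hl⟩ := hrx i
    have e := comp_aeval_apply (pull h2 (Y i)) (j.restrictScalars K) (cG c 0 0)
    rw [hl 0 0] at e
    have e2 : aeval (fun a => j (pull h2 (Y i) a)) (cG c 0 0) = j (l * (pull h1 (X i) 0 *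
      pull h1 (X (ixs i)) 0 + pull h1 (X i) 0 * pull h1 (X (ixs i)) 0)) := e.symm
    rw [e2]
    refine hjne _ (mul_ne_zero hl0 ?_)
    rw [← two_mul]
    exact mul_ne_zero h2P (mul_ne_zero (hx0 _) (hx0 _))
  refine ⟨(evC c _ _ (hon' (0, false)) (huH _) (huG _)).toRingHom.domain_nontrivial, fun F hF => ?_⟩
  -- the field of the curve
  set E : IntermediateField L Ω := IntermediateField.adjoin L {j PowerSeries.X, j u} with hE
  have hXE : (PowerSeries.X : PowerSeries k) ∈ serE j E :=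
    IntermediateField.subset_adjoin L _ (Set.mem_insert _ _)
  have huE : u ∈ serE j E :=
    IntermediateField.subset_adjoin L _ (Set.mem_insert_of_mem _ rfl)
  have hpE : ∀ p : Polynomial L, ((p.map (algebraMap L k) : Polynomial k) : PowerSeries k) ∈
      serE j E := by
    intro p
    rw [mem_serE, j_poly]
    exact poly_mem E _ hXE p
  have hwE : w ∈ serE j E := by
    rw [hw]
    have e1 : ((V1 fun e => algebraMap L k (d e) : Polynomial k) : PowerSeries k) ∈ serE j E := by
      have := hpE (V1 d)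
      rwa [map_V1] at this
    have e2 : ((U2 fun e => algebraMap L k (d e) : Polynomial k) : PowerSeries k) ∈ serE j E := by
      have := hpE (U2 d)
      rwa [map_U2] at this
    have e3 : (2 : PowerSeries k) ∈ serE j E := by
      have : (2 : PowerSeries k) = 1 + 1 := by norm_num
      rw [this]
      exact (serE j E).add_mem (serE j E).one_mem (serE j E).one_mem
    exact (serE j E).mul_mem ((serE j E).sub_mem huE e1)
      (serE_inv j E _ ((serE j E).mul_mem e3 e2))
  have hXYE := hS (serE j E) (fun e => serE_C j E (d e)) (serE_inv j E) (by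
      intro a
      fin_cases a
      · exact (serE j E).one_mem
      · exact hXE
      · exact (serE j E).zero_mem
      · exact (serE j E).zero_mem) (by
      intro a
      fin_cases a
      · exact (serE j E).one_mem
      · exact (serE j E).mul_mem ((serE j E).neg_mem ((serE j E).pow_mem hXE 2)) hwE
      · exact (serE j E).neg_mem hXE
      · exact (serE j E).mul_mem hXE hwE)
  have hpull : ∀ (h : Matrix (Fin 4) (Fin 4) L) (x : Fin 4 → PowerSeries k),
      (∀ a, x a ∈ serE j E) → ∀ a, j (pull h x a) ∈ E := by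
    intro h x hx a
    rw [← mem_serE, pull, Matrix.mulVec, dotProduct]
    refine (serE j E).sum_mem fun b _ => (serE j E).mul_mem ?_ (hx b)
    rw [Matrix.map_apply, PowerSeries.algebraMap_apply]
    exact serE_C j E _
  have hmem : ∀ i, ∀ b, Sum.elim
      (fun b : Fin 3 => j (pull h1 (X i) b.succ) / j (pull h1 (X i) 0))
      (fun b : Fin 3 => j (pull h2 (Y i) b.succ) / j (pull h2 (Y i) 0)) b ∈ E := by
    rintro i (b | b)
    · exact E.div_mem (hpull h1 _ (fun a => (hXYE i a).1) _) (hpull h1 _ (fun a => (hXYE i a).1) _)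
    · exact E.div_mem (hpull h2 _ (fun a => (hXYE i a).2) _) (hpull h2 _ (fun a => (hXYE i a).2) _)
  have hFi : ∀ i, aeval (Sum.elim
      (fun b : Fin 3 => j (pull h1 (X i) b.succ) / j (pull h1 (X i) 0))
      (fun b : Fin 3 => j (pull h2 (Y i) b.succ) / j (pull h2 (Y i) 0))) F = 0 := by
    intro i
    by_contra hne
    have hψ : ∀ a, evC c _ _ (hon' i) (huH i) (huG i) a ∈ E := by
      intro a
      obtain ⟨⟨b, m⟩, hbm⟩ := IsLocalization.surj
        (Submonoid.powers (Ideal.Quotient.mk (chartIdeal c) (den c))) a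
      obtain ⟨b, rfl⟩ := Ideal.Quotient.mk_surjective b
      obtain ⟨m, hm⟩ := m
      obtain ⟨n, rfl⟩ := hm
      have e := congrArg (evC c _ _ (hon' i) (huH i) (huG i)) hbm
      simp only at e
      rw [map_mul, evC_mk, ← map_pow, evC_mk] at e
      have hu1 : aeval (Sum.elim
          (fun b : Fin 3 => j (pull h1 (X i) b.succ) / j (pull h1 (X i) 0))
          (fun b : Fin 3 => j (pull h2 (Y i) b.succ) / j (pull h2 (Y i) 0))) (den c ^ n) ≠ 0 := by
        rw [map_pow, den, map_mul, aeval_aff_inl, aeval_aff_inr]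
        exact pow_ne_zero n (mul_ne_zero (huH i).ne_zero (huG i).ne_zero)
      rw [← eq_div_iff hu1] at e
      rw [e]
      exact E.div_mem (aeval_mem E _ (hmem i) _) (aeval_mem E _ (hmem i) _)
    obtain ⟨φ, hφ⟩ := Real.transport (q4 d) hd.sep hd.deg h2L hinf (j PowerSeries.X) (j u)
      (j_transcendental j hj) (by
        rw [← map_pow, hu, ← j_poly, map_q4]) (Chart c) (evC c _ _ (hon' i) (huH i) (huG i)) hψ
      (algebraMap (CoordRing c) (Chart c) (Ideal.Quotient.mk _ F)) (by rw [evC_mk]; exact hne)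
    exact hφ (hF φ)
  have hinfk : Infinite k := IsAlgClosed.instInfinite
  refine closure_F (k := k) (Ω := Ω) (ι := ℤ × Bool) c
    (Real.ns_x h2L c d h1 h2 τ A B hd hh1 hh2 hτ ha1 ha2 hc)
    (Real.ns_y h2L c d h1 h2 τ A B hd hh1 hh2 hτ ha1 ha2 hc) hcond
    (fun i a => j (pull h1 (X i) a)) (fun i a => j (pull h2 (Y i) a)) ixs ixt ixs_inj ixt_inj
    ?_ ?_ ?_ ?_ hon hjx0 hjy0 F hFi
  · intro i
    obtain ⟨l, -, hl⟩ := hrx i
    refine ⟨j l, fun a b => ?_⟩
    have e := comp_aeval_apply (pull h2 (Y i)) (j.restrictScalars K) (cG c a b)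
    rw [hl a b] at e
    refine e.symm.trans ?_
    show j _ = _
    simp only [map_mul, map_add]
  · intro i
    obtain ⟨l, -, hl⟩ := hry i
    refine ⟨j l, fun a b => ?_⟩
    have e := comp_aeval_apply (pull h1 (X i)) (j.restrictScalars K) (cH c a b)
    rw [hl a b] at e
    refine e.symm.trans ?_
    show j _ = _
    simp only [map_mul, map_add]
  · intro F1 F2 e1 e2 g1 g2 g12
    exact fin_pull j hj h1 hh1 X (fun G1 G2 e1 e2 hG1 hG2 hG => Real.fin_of_jets X
      (fun i => (hN i).x0) (fun i a ha => (hN i).cx a ha) 1 3 2 (by decide) (by decide)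
      (by decide) (by decide) (by decide) (by decide) 1 one_ne_zero hc1 fX G1 G2 e1 e2 hG1 hG2 hG)
      F1 F2 e1 e2 g1 g2 g12
  · intro F1 F2 e1 e2 g1 g2 g12
    exact fin_pull j hj h2 hh2 Y (fun G1 G2 e1 e2 hG1 hG2 hG => Real.fin_of_jets Y
      (fun i => (hN i).y0) (fun i a ha => (hN i).cy a ha) 2 3 1 (by decide) (by decide)
      (by decide) (by decide) (by decide) (by decide) (-1) (neg_ne_zero.mpr one_ne_zero)
      (fun i => by rw [(Real.jet_on hdk.std two_ne_zero (hN i)).2.2, hc1]) fY G1 G2 e1 e2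
      hG1 hG2 hG) F1 F2 e1 e2 g1 g2 g12

end field

end Pool.Agent.Helper92.CY
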