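import Mathlib
import Pool.Agent.Helper92.CY.Dense
import Pool.Agent.Helper76.CY.Cond
import Pool.Agent.Helper15.PotDense

/-!
# General complete intersections of bidegrees `(1,1)`, `(1,1)`, `(2,2)` in `P^3 × P^3`
-/

namespace Pool.Agent.Helper92.CY

open MvPolynomial Pool.Agent.Helper37.RP Pool.Agent.Helper76.CY AlgebraicGeometry CategoryTheory
  Pool.Agent.Helper15

theorem act_map {R R' : Type*} [CommRing R] [CommRing R'] [Algebra R R'] (d : Ix → R)
    (h1 h2 : Matrix (Fin 4) (Fin 4) R) (τ : Matrix (Fin 2) (Fin 2) R)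
    (A B : Matrix (Fin 4) (Fin 4) R) :
    (fun e => algebraMap R R' (act d h1 h2 τ A B e)) =
      act (fun e => algebraMap R R' (d e)) (h1.map (algebraMap R R')) (h2.map (algebraMap R R'))
        (τ.map (algebraMap R R')) (A.map (algebraMap R R')) (B.map (algebraMap R R')) := by
  funext e
  rcases e with ⟨i, j⟩ | ⟨i, j⟩ | ⟨i, j, k, l⟩
  · simp only [act, map_sum, map_mul, map_add, Matrix.map_apply, pL_map, pL'_map]
  · simp only [act, map_sum, map_mul, map_add, Matrix.map_apply, pL_map, pL'_map]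
  · simp only [act, map_sum, map_mul, map_add, Matrix.map_apply, pL_map, pL'_map]

theorem chart_pd : ∃ Δ : MvPolynomial Ix ℚ, Δ ≠ 0 ∧ ∀ (K : Type) [Field K] [NumberField K]
    (c : Ix → K), aeval c Δ ≠ 0 → PotentiallyDense K (Spec (CommRingCat.of (Chart c)))
      (Spec.map (CommRingCat.ofHom (algebraMap K (Chart c)))) := by
  obtain ⟨Δ1, hΔ1, H1⟩ := Real.exists_std
  obtain ⟨Δ2, hΔ2, H2⟩ := cond4.{0}
  refine ⟨Δ1 * Δ2, mul_ne_zero hΔ1 hΔ2, fun K _ _ c hc => ?_⟩
  rw [map_mul] at hc
  have hc1 := left_ne_zero_of_mul hc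
  have hc2 := right_ne_zero_of_mul hc
  obtain ⟨L1, _, _, _, _, d, h1, h2, τ, A, B, hd, hh1, hh2, hτ, ha1, ha2, hact⟩ := H1 K c hc1
  have hnf : NumberField L1 := NumberField.of_module_finite K L1
  obtain ⟨L2, _, _, _, hinf⟩ := Real.exists_points L1 (q4 d) hd.sep hd.deg (q4_natDegree_le d)
  letI : Algebra K L2 := ((algebraMap L1 L2).comp (algebraMap K L1)).toAlgebra
  have hT : IsScalarTower K L1 L2 := IsScalarTower.of_algebraMap_eq fun _ => rfl
  have hfin : FiniteDimensional K L2 := FiniteDimensional.trans K L1 L2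
  have hch : CharZero L2 := charZero_of_injective_algebraMap (algebraMap L1 L2).injective
  refine ⟨L2, inferInstance, inferInstance, hfin, dense_ratPts_spec K L2 (Chart c) fun g hg => ?_⟩
  obtain ⟨⟨b, m⟩, hbm⟩ := IsLocalization.surj
    (Submonoid.powers (Ideal.Quotient.mk (chartIdeal c) (den c))) g
  obtain ⟨F, rfl⟩ := Ideal.Quotient.mk_surjective b
  have hu := IsLocalization.map_units (Chart c) m
  have hinj := (algebraMap L1 L2).injective
  have hdet : ∀ {n : ℕ} (M : Matrix (Fin n) (Fin n) L1), M.det ≠ 0 →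
      (M.map (algebraMap L1 L2)).det ≠ 0 := by
    intro n M hM
    have : (M.map (algebraMap L1 L2)).det = algebraMap L1 L2 M.det := by
      rw [RingHom.map_det]
      rfl
    rw [this]
    exact (map_ne_zero_iff _ hinj).mpr hM
  have hadj : ∀ (M : Matrix (Fin 4) (Fin 4) L1), M.adjugate 0 0 ≠ 0 →
      (M.map (algebraMap L1 L2)).adjugate 0 0 ≠ 0 := by
    intro M hM
    have := RingHom.map_adjugate (algebraMap L1 L2) M
    have e : (M.map (algebraMap L1 L2)).adjugate 0 0 = algebraMap L1 L2 (M.adjugate 0 0) :=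
      (congrFun (congrFun this 0) 0).symm
    rw [e]
    exact (map_ne_zero_iff _ hinj).mpr hM
  have hzero : algebraMap (CoordRing c) (Chart c) (Ideal.Quotient.mk _ F) = 0 := by
    refine (key_zero (k := AlgebraicClosure L2)
      (Ω := FractionRing (PowerSeries (AlgebraicClosure L2))) c
      (fun e => algebraMap L1 L2 (d e)) (h1.map (algebraMap L1 L2)) (h2.map (algebraMap L1 L2))
      (τ.map (algebraMap L1 L2)) (A.map (algebraMap L1 L2)) (B.map (algebraMap L1 L2)) hd.map
      (hdet h1 hh1) (hdet h2 hh2) (hdet τ hτ) (hadj h1 ha1) (hadj h2 ha2) ?_ ?_ ?_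
      (IsScalarTower.toAlgHom (AlgebraicClosure L2) (PowerSeries (AlgebraicClosure L2)) _)
      (IsFractionRing.injective _ _)).2 F ?_
    · rw [← act_map, ← hact]
      funext e
      exact IsScalarTower.algebraMap_apply K L1 L2 _
    · apply H2
      have : aeval (fun e => algebraMap K (AlgebraicClosure L2) (c e)) Δ2 =
          algebraMap K (AlgebraicClosure L2) (aeval c Δ2) :=
        aeval_algebraMap_apply _ _ _
      rw [this]
      exact (map_ne_zero_iff _ (algebraMap K (AlgebraicClosure L2)).injective).mpr hc2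
    · convert hinf using 2
      ext p
      rw [← map_q4, Polynomial.eval_map, Polynomial.aeval_def]
    · intro φ
      have e := congrArg φ hbm
      rw [map_mul, hg φ, zero_mul] at e
      exact e.symm
  rw [hzero] at hbm
  exact (hu.mul_left_eq_zero).mp hbm

end Pool.Agent.Helper92.CY
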