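import Mathlib
import Pool.Agent.Helper92.CY.Main
import Pool.Agent.Helper92.CY.Frame2
import Pool.Agent.Helper31.CY.Den

/-!
# General complete intersections of bidegrees `(1,1)`, `(1,1)`, `(2,2)`: the full chart
-/

namespace Pool.Agent.Helper92.CY

open MvPolynomial Pool.Agent.Helper37.RP Pool.Agent.Helper76.CY AlgebraicGeometry CategoryTheory
  Pool.Agent.Helper15

theorem NS.deh_ne {K : Type*} [Field K] {c : Ix → K} (h : NS c) : deh (cH c 0 0) ≠ 0 := by
  intro h0
  have := (h 1 0 (by rw [h0]; simp)).1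
  exact one_ne_zero this

/-- The facts about general coefficients. -/
theorem chart_facts : ∃ Δ : MvPolynomial Ix ℚ, Δ ≠ 0 ∧ ∀ (K : Type) [Field K] [NumberField K]
    (c : Ix → K), aeval c Δ ≠ 0 →
      NS c ∧ NS (fun e => c (swI e)) ∧
      Pool.Agent.Helper63.NPD.Cond4 (pL fun e => algebraMap K (AlgebraicClosure K) (c e))
        (pL' fun e => algebraMap K (AlgebraicClosure K) (c e))
        (pQ fun e => algebraMap K (AlgebraicClosure K) (c e)) ∧ Nontrivial (Chart c) ∧
      ∃ (L : Type) (_ : Field L) (_ : Algebra K L), FiniteDimensional K L ∧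
        ∀ F : MvPolynomial (Fin 3 ⊕ Fin 3) K, (∀ φ : Chart c →ₐ[K] L,
          φ (algebraMap (CoordRing c) (Chart c) (Ideal.Quotient.mk _ F)) = 0) →
          algebraMap (CoordRing c) (Chart c) (Ideal.Quotient.mk _ F) = 0 := by
  obtain ⟨Δ1, hΔ1, H1⟩ := Real.exists_std
  obtain ⟨Δ2, hΔ2, H2⟩ := cond4.{0}
  refine ⟨Δ1 * Δ2, mul_ne_zero hΔ1 hΔ2, fun K _ _ c hc => ?_⟩
  rw [map_mul] at hc
  have hc1 := left_ne_zero_of_mul hc
  have hc2 := right_ne_zero_of_mul hc
  obtain ⟨L1, _, _, _, _, d, h1, h2, τ, A, B, hd, hh1, hh2, hτ, ha1, ha2, hact⟩ := H1 K c hc1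
  have hnf : NumberField L1 := NumberField.of_module_finite K L1
  have h2L1 : (2 : L1) ≠ 0 := two_ne_zero
  have hCond : ∀ (k : Type) [Field k] [Algebra K k] [Algebra ℚ k],
      Pool.Agent.Helper63.NPD.Cond4 (pL fun e => algebraMap K k (c e))
        (pL' fun e => algebraMap K k (c e)) (pQ fun e => algebraMap K k (c e)) := by
    intro k _ _ _
    apply H2
    have : aeval (fun e => algebraMap K k (c e)) Δ2 = algebraMap K k (aeval c Δ2) := by
      have : IsScalarTower ℚ K k := inferInstance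
      exact aeval_algebraMap_apply _ _ _
    rw [this]
    exact (map_ne_zero_iff _ (algebraMap K k).injective).mpr hc2
  obtain ⟨L2, _, _, _, hinf⟩ := Real.exists_points L1 (q4 d) hd.sep hd.deg (q4_natDegree_le d)
  letI : Algebra K L2 := ((algebraMap L1 L2).comp (algebraMap K L1)).toAlgebra
  have hT : IsScalarTower K L1 L2 := IsScalarTower.of_algebraMap_eq fun _ => rfl
  have hfin : FiniteDimensional K L2 := FiniteDimensional.trans K L1 L2
  have hch : CharZero L2 := charZero_of_injective_algebraMap (algebraMap L1 L2).injective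
  have hinj := (algebraMap L1 L2).injective
  have hdet : ∀ {n : ℕ} (M : Matrix (Fin n) (Fin n) L1), M.det ≠ 0 →
      (M.map (algebraMap L1 L2)).det ≠ 0 := by
    intro n M hM
    have : (M.map (algebraMap L1 L2)).det = algebraMap L1 L2 M.det := by
      rw [RingHom.map_det]
      rfl
    rw [this]
    exact (map_ne_zero_iff _ hinj).mpr hM
  have hadj : ∀ (M : Matrix (Fin 4) (Fin 4) L1), M.adjugate 0 0 ≠ 0 →
      (M.map (algebraMap L1 L2)).adjugate 0 0 ≠ 0 := by
    intro M hM
    have := RingHom.map_adjugate (algebraMap L1 L2) M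
    have e : (M.map (algebraMap L1 L2)).adjugate 0 0 = algebraMap L1 L2 (M.adjugate 0 0) :=
      (congrFun (congrFun this 0) 0).symm
    rw [e]
    exact (map_ne_zero_iff _ hinj).mpr hM
  have hkey := key_zero (k := AlgebraicClosure L2)
    (Ω := FractionRing (PowerSeries (AlgebraicClosure L2))) c
    (fun e => algebraMap L1 L2 (d e)) (h1.map (algebraMap L1 L2)) (h2.map (algebraMap L1 L2))
    (τ.map (algebraMap L1 L2)) (A.map (algebraMap L1 L2)) (B.map (algebraMap L1 L2)) hd.map
    (hdet h1 hh1) (hdet h2 hh2) (hdet τ hτ) (hadj h1 ha1) (hadj h2 ha2) (by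
      rw [← act_map, ← hact]
      funext e
      exact IsScalarTower.algebraMap_apply K L1 L2 _)
    (hCond (AlgebraicClosure L2)) (by
      convert hinf using 2
      ext p
      rw [← map_q4, Polynomial.eval_map, Polynomial.aeval_def])
    (IsScalarTower.toAlgHom (AlgebraicClosure L2) (PowerSeries (AlgebraicClosure L2)) _)
    (IsFractionRing.injective _ _)
  exact ⟨Real.ns_x h2L1 c d h1 h2 τ A B hd hh1 hh2 hτ ha1 ha2 hact,
    Real.ns_y h2L1 c d h1 h2 τ A B hd hh1 hh2 hτ ha1 ha2 hact,
    hCond (AlgebraicClosure K), hkey.1, L2, inferInstance, inferInstance, hfin, hkey.2⟩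

end Pool.Agent.Helper92.CY
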