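import Mathlib
import Pool.Agent.Helper92.CY.Main2

/-!
# General complete intersections: components of the chart
-/

namespace Pool.Agent.Helper92.CY

open MvPolynomial Pool.Agent.Helper37.RP Pool.Agent.Helper76.CY AlgebraicGeometry CategoryTheory
  Pool.Agent.Helper15

section comp

variable {K : Type} [Field K]

theorem aeval_mem_adjoin {Ω : Type} [Field Ω] [Algebra K Ω] (E : IntermediateField K Ω)
    {n : ℕ} (x : Fin n → Ω) (hx : ∀ i, x i ∈ E) (F : MvPolynomial (Fin n) K) : aeval x F ∈ E := by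
  induction F using MvPolynomial.induction_on with
  | C a =>
    rw [aeval_C]
    exact E.algebraMap_mem a
  | add p q hp hq =>
    rw [map_add]
    exact E.add_mem hp hq
  | mul_X p i hp =>
    rw [map_mul, aeval_X]
    exact E.mul_mem hp (hx i)

/-- The coordinates `y` are algebraic over the field generated by the coordinates `x`. -/
theorem y_algebraic {Ω : Type} [Field Ω] [Algebra K Ω] {c : Ix → K}
    {x y : Fin 3 → Ω} (h : OnX c (aff x) (aff y)) (h0 : aeval (aff x) (cH c 0 0) ≠ 0) (l : Fin 3) :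
    IsAlgebraic (IntermediateField.adjoin K (Set.range x)) (y l) := by
  set E := IntermediateField.adjoin K (Set.range x) with hE
  have hx : ∀ i, x i ∈ E := fun i => IntermediateField.subset_adjoin K _ ⟨i, rfl⟩
  have hax : ∀ i, aff x i ∈ E := by
    intro i
    refine Fin.cases ?_ (fun j => ?_) i
    · exact E.one_mem
    · exact hx j
  obtain ⟨h1, h3⟩ := Real.omx_eq c (aff x) (aff y) rfl h
  have hal : ∀ z : Ω, z ∈ E → IsAlgebraic E z := fun z hz =>
    isAlgebraic_algebraMap (⟨z, hz⟩ : E)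
  have hω : IsAlgebraic E (omx c (aff x) (aff y)) := by
    have e : IsAlgebraic E (omx c (aff x) (aff y) ^ 2) := by
      have : omx c (aff x) (aff y) ^ 2 = aeval (aff x) (Px c) * (aeval (aff x) (cH c 0 0))⁻¹ := by
        rw [← h3]
        field_simp
      rw [this]
      exact hal _ (E.mul_mem (aeval_mem_adjoin E _ hax _) (E.inv_mem (aeval_mem_adjoin E _ hax _)))
    exact e.of_pow (by norm_num)
  have e := h1 l.succ
  have hy : y l = (aeval (aff x) (cH c 0 l.succ) + omx c (aff x) (aff y) *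
      N4 (fun i => aeval (aff x) (lin (fun i j => pL c j i) i))
        (fun i => aeval (aff x) (lin (fun i j => pL' c j i) i)) l.succ 0) *
      (aeval (aff x) (cH c 0 0))⁻¹ := by
    rw [← e]
    show y l = _ * y l * _
    field_simp
  rw [hy]
  refine IsAlgebraic.mul (IsAlgebraic.add (hal _ (aeval_mem_adjoin E _ hax _))
    (hω.mul (hal _ ?_))) (hal _ (E.inv_mem (aeval_mem_adjoin E _ hax _)))
  have hl : ∀ (M : Matrix (Fin 4) (Fin 4) K) i, aeval (aff x) (lin M i) ∈ E :=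
    fun M i => aeval_mem_adjoin E _ hax _
  have hN : ∀ a b : Fin 4 → Ω, (∀ i, a i ∈ E) → (∀ i, b i ∈ E) → ∀ i j, N4 a b i j ∈ E := by
    intro a b ha hb i j
    have hp : ∀ i j, plk a b i j ∈ E := fun i j =>
      E.sub_mem (E.mul_mem (ha _) (hb _)) (E.mul_mem (ha _) (hb _))
    unfold N4
    fin_cases i <;> fin_cases j <;>
      first
        | exact E.zero_mem
        | exact hp _ _
        | exact E.neg_mem (hp _ _)
  exact hN _ _ (fun i => hl _ i) (fun i => hl _ i) _ _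

theorem aeval_algebraic {Ω : Type} [Field Ω] [Algebra K Ω] (x y : Fin 3 → Ω)
    (hy : ∀ l, IsAlgebraic (IntermediateField.adjoin K (Set.range x)) (y l))
    (F : MvPolynomial (Fin 3 ⊕ Fin 3) K) :
    IsAlgebraic (IntermediateField.adjoin K (Set.range x)) (aeval (Sum.elim x y) F) := by
  have hal : ∀ z : Ω, z ∈ IntermediateField.adjoin K (Set.range x) →
      IsAlgebraic (IntermediateField.adjoin K (Set.range x)) z := fun z hz =>
    isAlgebraic_algebraMap (⟨z, hz⟩ : IntermediateField.adjoin K (Set.range x))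
  induction F using MvPolynomial.induction_on with
  | C a =>
    rw [aeval_C]
    exact hal _ ((IntermediateField.adjoin K (Set.range x)).algebraMap_mem a)
  | add p q hp hq =>
    rw [map_add]
    exact hp.add hq
  | mul_X p i hp =>
    rw [map_mul, aeval_X]
    refine hp.mul ?_
    rcases i with i | i
    · exact hal _ (IntermediateField.subset_adjoin K _ ⟨i, rfl⟩)
    · exact hy i

theorem frac_algebraic {Ω D : Type} [Field Ω] [Algebra K Ω] [CommRing D] [IsDomain D] [Algebra D Ω]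
    [IsFractionRing D Ω] (x y : Fin 3 → Ω)
    (hy : ∀ l, IsAlgebraic (IntermediateField.adjoin K (Set.range x)) (y l))
    (hD : ∀ a : D, ∃ F : MvPolynomial (Fin 3 ⊕ Fin 3) K, algebraMap D Ω a =
      aeval (Sum.elim x y) F) :
    Algebra.IsAlgebraic (IntermediateField.adjoin K (Set.range x)) Ω := by
  have hA := aeval_algebraic x y hy
  refine ⟨fun z => ?_⟩
  obtain ⟨a, b, hb, rfl⟩ := IsFractionRing.div_surjective (A := D) z
  obtain ⟨F, hF⟩ := hD a
  obtain ⟨G, hG⟩ := hD b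
  rw [div_eq_mul_inv, hF, hG]
  exact (hA F).mul (hA G).inv

open IntermediateField algebraAdjoinAdjoin in
theorem trdeg_le_three {Ω : Type} [Field Ω] [Algebra K Ω] (x : Fin 3 → Ω)
    (h : Algebra.IsAlgebraic (IntermediateField.adjoin K (Set.range x)) Ω) :
    Algebra.trdeg K Ω ≤ 3 := by
  have h3 : Algebra.IsAlgebraic (Algebra.adjoin K (Set.range x)) Ω :=
    (IsFractionRing.comap_isAlgebraic_iff (A := Algebra.adjoin K (Set.range x))
      (K := IntermediateField.adjoin K (Set.range x))).mpr h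
  refine (Algebra.IsAlgebraic.trdeg_le_cardinalMk K (Set.range x)).trans ?_
  refine Cardinal.mk_range_le.trans ?_
  simp

theorem height_le_three {c : Ix → K} {P : Ideal (MvPolynomial (Fin 3 ⊕ Fin 3) K)}
    (hP : P ∈ (chartIdeal c).minimalPrimes) : P.height ≤ 3 := by
  rw [chartIdeal] at hP
  refine (Ideal.height_le_card_of_mem_minimalPrimes_span (Set.toFinite _) hP).trans ?_
  refine (Nat.cast_le.mpr ((Set.ncard_insert_le _ _).trans (Nat.add_le_add_right
    ((Set.ncard_insert_le _ _).trans (Nat.add_le_add_right (Set.ncard_singleton _).le _)) _))).trans ?_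
  norm_num

section gen

variable {P : Ideal (MvPolynomial (Fin 3 ⊕ Fin 3) K)} [P.IsPrime] {Ω : Type} [Field Ω]
  [Algebra K Ω] [Algebra (MvPolynomial (Fin 3 ⊕ Fin 3) K ⧸ P) Ω]
  [IsScalarTower K (MvPolynomial (Fin 3 ⊕ Fin 3) K ⧸ P) Ω]
  [IsFractionRing (MvPolynomial (Fin 3 ⊕ Fin 3) K ⧸ P) Ω]

variable (P Ω) in
/-- The coordinates in the residue field. -/
noncomputable def gz (i : Fin 3 ⊕ Fin 3) : Ω :=
  algebraMap (MvPolynomial (Fin 3 ⊕ Fin 3) K ⧸ P) Ω (Ideal.Quotient.mk P (X i))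

omit [Algebra K Ω] [IsScalarTower K (MvPolynomial (Fin 3 ⊕ Fin 3) K ⧸ P) Ω]
  [IsFractionRing (MvPolynomial (Fin 3 ⊕ Fin 3) K ⧸ P) Ω] [P.IsPrime] in
variable (P Ω) in
theorem gz_eq : gz P Ω = Sum.elim (fun i => gz P Ω (.inl i)) (fun i => gz P Ω (.inr i)) := by
  funext i
  rcases i with i | i <;> rfl

variable (P Ω) in
omit [IsFractionRing (MvPolynomial (Fin 3 ⊕ Fin 3) K ⧸ P) Ω] [P.IsPrime] in
theorem aeval_gz (F : MvPolynomial (Fin 3 ⊕ Fin 3) K) : aeval (gz P Ω) F =
    algebraMap (MvPolynomial (Fin 3 ⊕ Fin 3) K ⧸ P) Ω (Ideal.Quotient.mk P F) := by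
  have e : (aeval (gz P Ω) : MvPolynomial (Fin 3 ⊕ Fin 3) K →ₐ[K] Ω) =
      (IsScalarTower.toAlgHom K (MvPolynomial (Fin 3 ⊕ Fin 3) K ⧸ P) Ω).comp
        (Ideal.Quotient.mkₐ K P) := by
    apply MvPolynomial.algHom_ext
    intro i
    rw [aeval_X]
    rfl
  rw [e]
  rfl

omit [P.IsPrime] in
variable (P Ω) in
theorem aeval_gz_eq_zero {F : MvPolynomial (Fin 3 ⊕ Fin 3) K} :
    aeval (gz P Ω) F = 0 ↔ F ∈ P := by
  rw [aeval_gz, map_eq_zero_iff _ (IsFractionRing.injective _ _), Ideal.Quotient.eq_zero_iff_mem]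

omit [P.IsPrime] in
variable (P Ω) in
theorem ker_gz : RingHom.ker (aeval (gz P Ω) : MvPolynomial (Fin 3 ⊕ Fin 3) K →ₐ[K] Ω) = P := by
  ext F
  rw [RingHom.mem_ker]
  exact aeval_gz_eq_zero P Ω

omit [P.IsPrime] in
variable (Ω) in
theorem gz_on {c : Ix → K} (h : chartIdeal c ≤ P) :
    OnX c (aff fun i => gz P Ω (.inl i)) (aff fun i => gz P Ω (.inr i)) := by
  have := (chartIdeal_le c (aeval (gz P Ω) : MvPolynomial (Fin 3 ⊕ Fin 3) K →ₐ[K] Ω)).mp
    (by rw [ker_gz]; exact h)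
  simpa using this

variable (Ω) in
/-- Residue fields at generic points are algebraic over the field generated by the `x`. -/
theorem kap_algebraic {c : Ix → K} (hP : chartIdeal c ≤ P) (hd : den c ∉ P) :
    Algebra.IsAlgebraic (IntermediateField.adjoin K (Set.range fun i => gz P Ω (.inl i)))
      Ω := by
  have h0 : aeval (aff fun i => gz P Ω (.inl i)) (cH c 0 0) ≠ 0 := by
    intro h0
    apply hd
    rw [← aeval_gz_eq_zero P Ω, gz_eq, den, map_mul, aeval_aff_inl, h0, zero_mul]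
  refine frac_algebraic (D := MvPolynomial (Fin 3 ⊕ Fin 3) K ⧸ P) _ (fun i => gz P Ω (.inr i))
    (fun l => y_algebraic (gz_on Ω hP) h0 l) fun a => ?_
  obtain ⟨F, rfl⟩ := Ideal.Quotient.mk_surjective a
  exact ⟨F, by rw [← gz_eq, aeval_gz]⟩

variable (Ω) in
/-- The coordinates `x` are algebraically independent on a component. -/
theorem x_independent {c : Ix → K} (hP : P ∈ (chartIdeal c).minimalPrimes) (hd : den c ∉ P) :
    AlgebraicIndependent K fun i => gz P Ω (.inl i) := by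
  by_contra hx
  have hh : (RingHom.ker (aeval (Sum.elim (fun i => gz P Ω (.inl i)) (fun i => gz P Ω (.inr i))) :
      MvPolynomial (Fin 3 ⊕ Fin 3) K →ₐ[K] Ω)).height ≤ 3 := by
    rw [← gz_eq, ker_gz]
    exact height_le_three hP
  obtain ⟨j, hj⟩ := Frame2.generic_point _ _ hh hx
  have := kap_algebraic Ω hP.1.2 hd
  exact hj (Algebra.IsAlgebraic.isAlgebraic _)

end gen

theorem trdeg_eq_three' {P : Ideal (MvPolynomial (Fin 3 ⊕ Fin 3) K)} [P.IsPrime] (Ω : Type)
    [Field Ω] [Algebra K Ω] [Algebra (MvPolynomial (Fin 3 ⊕ Fin 3) K ⧸ P) Ω]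
    [IsScalarTower K (MvPolynomial (Fin 3 ⊕ Fin 3) K ⧸ P) Ω]
    [IsFractionRing (MvPolynomial (Fin 3 ⊕ Fin 3) K ⧸ P) Ω] {c : Ix → K}
    (hP : P ∈ (chartIdeal c).minimalPrimes) (hd : den c ∉ P) :
    Algebra.trdeg K (MvPolynomial (Fin 3 ⊕ Fin 3) K ⧸ P) = 3 := by
  have hx := x_independent Ω hP hd
  apply le_antisymm
  · have h1 : Algebra.trdeg K (MvPolynomial (Fin 3 ⊕ Fin 3) K ⧸ P) ≤ Algebra.trdeg K Ω :=
      trdeg_le_of_injective (IsScalarTower.toAlgHom K _ Ω) (IsFractionRing.injective _ _)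
    exact h1.trans (trdeg_le_three _ (kap_algebraic Ω hP.1.2 hd))
  · have h1 : AlgebraicIndependent K fun i : Fin 3 =>
        (Ideal.Quotient.mk P (X (.inl i)) : MvPolynomial (Fin 3 ⊕ Fin 3) K ⧸ P) :=
      AlgebraicIndependent.of_comp (IsScalarTower.toAlgHom K _ Ω) hx
    have := h1.cardinalMk_le_trdeg
    simpa using this

theorem trdeg_eq_three {P : Ideal (MvPolynomial (Fin 3 ⊕ Fin 3) K)} [P.IsPrime] {c : Ix → K}
    (hP : P ∈ (chartIdeal c).minimalPrimes) (hd : den c ∉ P) :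
    Algebra.trdeg K (MvPolynomial (Fin 3 ⊕ Fin 3) K ⧸ P) = 3 :=
  trdeg_eq_three' (FractionRing (MvPolynomial (Fin 3 ⊕ Fin 3) K ⧸ P)) hP hd

/-- A polynomial in a component is in every component. -/
theorem mem_all' {P : Ideal (MvPolynomial (Fin 3 ⊕ Fin 3) K)} [P.IsPrime] (Ω : Type)
    [Field Ω] [Algebra K Ω] [Algebra (MvPolynomial (Fin 3 ⊕ Fin 3) K ⧸ P) Ω]
    [IsScalarTower K (MvPolynomial (Fin 3 ⊕ Fin 3) K ⧸ P) Ω]
    [IsFractionRing (MvPolynomial (Fin 3 ⊕ Fin 3) K ⧸ P) Ω] {c : Ix → K} (hns : NS c)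
    (hP : P ∈ (chartIdeal c).minimalPrimes) (hd : den c ∉ P)
    {F : MvPolynomial (Fin 3 ⊕ Fin 3) K} (hF : F ∈ P)
    {P' : Ideal (MvPolynomial (Fin 3 ⊕ Fin 3) K)} (hP' : P' ∈ (chartIdeal c).minimalPrimes)
    (hd' : den c ∉ P') : F ∈ P' := by
  obtain ⟨N, hN1, hN2⟩ := exists_normpoly c hns F
  have h1 := hN1 Ω _ _ (gz_on Ω hP.1.2) (by rw [← gz_eq, aeval_gz_eq_zero]; exact hF)
  have h2 : N = 0 := (x_independent Ω hP hd).eq_zero_of_aeval_eq_zero N h1
  obtain ⟨n, hn⟩ := hN2 h2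
  have h3 := hn (CoordRing c) _ _ (onX_taut c)
  have e1 := aff_map (Ideal.Quotient.mkₐ K (chartIdeal c))
    fun i => (MvPolynomial.X (.inl i) : MvPolynomial (Fin 3 ⊕ Fin 3) K)
  have e2 := comp_aeval_apply (aff fun i =>
    (MvPolynomial.X (.inl i) : MvPolynomial (Fin 3 ⊕ Fin 3) K))
    (Ideal.Quotient.mkₐ K (chartIdeal c)) (cH c 0 0)
  rw [e1] at e2
  have e3 : aeval (Sum.elim (fun i => (Ideal.Quotient.mk (chartIdeal c) (MvPolynomial.X (.inl i)) :
      CoordRing c)) (fun i => (Ideal.Quotient.mk (chartIdeal c) (MvPolynomial.X (.inr i)) :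
      CoordRing c))) F = Ideal.Quotient.mk (chartIdeal c) F := by
    have e : (aeval (Sum.elim (fun i => (Ideal.Quotient.mk (chartIdeal c)
        (MvPolynomial.X (.inl i)) : CoordRing c)) (fun i => (Ideal.Quotient.mk (chartIdeal c)
        (MvPolynomial.X (.inr i)) : CoordRing c))) :
        MvPolynomial (Fin 3 ⊕ Fin 3) K →ₐ[K] CoordRing c) =
        Ideal.Quotient.mkₐ K (chartIdeal c) := by
      apply MvPolynomial.algHom_ext
      rintro (i | i) <;> rw [aeval_X] <;> rfl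
    rw [e]
    rfl
  have h4 : Ideal.Quotient.mk (chartIdeal c)
      ((aeval (aff fun i => (X (.inl i) : MvPolynomial (Fin 3 ⊕ Fin 3) K)) (cH c 0 0)) ^ n * F) =
      0 := by
    rw [map_mul, map_pow, ← e3]
    rw [← h3]
    congr 2
  have hprime : P'.IsPrime := hP'.1.1
  rcases hprime.mem_or_mem (hP'.1.2 (Ideal.Quotient.eq_zero_iff_mem.mp h4)) with h5 | h5
  · exfalso
    apply hd'
    exact Ideal.mul_mem_right _ _ (hprime.mem_of_pow_mem n h5)
  · exact h5

theorem mem_all {P : Ideal (MvPolynomial (Fin 3 ⊕ Fin 3) K)} [P.IsPrime] {c : Ix → K}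
    (hns : NS c) (hP : P ∈ (chartIdeal c).minimalPrimes) (hd : den c ∉ P)
    {F : MvPolynomial (Fin 3 ⊕ Fin 3) K} (hF : F ∈ P)
    {P' : Ideal (MvPolynomial (Fin 3 ⊕ Fin 3) K)} (hP' : P' ∈ (chartIdeal c).minimalPrimes)
    (hd' : den c ∉ P') : F ∈ P' :=
  mem_all' (FractionRing (MvPolynomial (Fin 3 ⊕ Fin 3) K ⧸ P)) hns hP hd hF hP' hd'

/-- The chart is irreducible. -/
theorem radical_mem {c : Ix → K} (hns : NS c) (hne : chartIdeal c ≠ ⊤)
    (hd : ∀ P ∈ (chartIdeal c).minimalPrimes, den c ∉ P) :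
    (chartIdeal c).radical ∈ (chartIdeal c).minimalPrimes := by
  obtain ⟨P, hP⟩ := Ideal.nonempty_minimalPrimes hne
  have hprime : P.IsPrime := hP.1.1
  have : (chartIdeal c).radical = P := by
    rw [← Ideal.sInf_minimalPrimes]
    apply le_antisymm
    · exact sInf_le hP
    · exact le_sInf fun P' hP' F hF => mem_all hns hP (hd P hP) hF hP' (hd P' hP')
  rw [this]
  exact hP

end comp

/-- The coordinate ring of the variety in the chart. -/
abbrev VarRing {K : Type} [Field K] (c : Ix → K) : Type :=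
  MvPolynomial (Fin 3 ⊕ Fin 3) K ⧸ (chartIdeal c).radical

theorem main : ∃ Δ : MvPolynomial Ix ℚ, Δ ≠ 0 ∧ ∀ (K : Type) [Field K] [NumberField K]
    (c : Ix → K), aeval c Δ ≠ 0 →
      (chartIdeal c).radical.IsPrime ∧ Algebra.trdeg K (VarRing c) = 3 ∧
      ∀ (X : Scheme.{0}) (s : X ⟶ Spec (CommRingCat.of K)) [IrreducibleSpace X],
        BirationalOver K X (Spec (CommRingCat.of (VarRing c))) s
          (Spec.map (CommRingCat.ofHom (algebraMap K (VarRing c)))) →
        PotentiallyDense K X s := by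
  obtain ⟨Δ, hΔ, H⟩ := chart_facts
  refine ⟨Δ, hΔ, fun K _ _ c hc => ?_⟩
  obtain ⟨hns, hns', hcond, hnt, L, _, _, hfin, hL⟩ := H K c hc
  have hne : chartIdeal c ≠ ⊤ := by
    intro h
    have : Subsingleton (CoordRing c) := by
      rw [CoordRing, h]
      exact Ideal.Quotient.subsingleton_iff.mpr rfl
    have h1 : (1 : Chart c) = 0 := by
      rw [← map_one (algebraMap (CoordRing c) (Chart c)), Subsingleton.elim (1 : CoordRing c) 0,
        map_zero]
    exact one_ne_zero h1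
  have hG : deh (cG c 0 0) ≠ 0 := by
    rw [cG_eq_cH]
    exact hns'.deh_ne
  have hd : ∀ P ∈ (chartIdeal c).minimalPrimes, den c ∉ P :=
    Pool.Agent.Helper31.CYD.den_notMem two_ne_zero c hns.deh_ne hG hcond
  have hrad := radical_mem hns hne hd
  have hprime : (chartIdeal c).radical.IsPrime := hrad.1.1
  refine ⟨hprime, trdeg_eq_three hrad (hd _ hrad), fun X s _ hX => ?_⟩
  refine PotentiallyDense.of_birational K X _ s _ hX ⟨L, inferInstance, inferInstance, hfin,
    dense_ratPts_spec K L (VarRing c) fun g hg => ?_⟩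
  obtain ⟨F, rfl⟩ := Ideal.Quotient.mk_surjective g
  have h1 := hL F (by
    intro φ
    have h0 : ∀ G ∈ (chartIdeal c).radical, φ (algebraMap (CoordRing c) (Chart c)
        (Ideal.Quotient.mk (chartIdeal c) G)) = 0 := by
      rintro G ⟨m, hm⟩
      have e : φ (algebraMap (CoordRing c) (Chart c)
        (Ideal.Quotient.mk (chartIdeal c) (G ^ m))) = 0 := by
        rw [Ideal.Quotient.eq_zero_iff_mem.mpr hm, map_zero, map_zero]
      rw [map_pow, map_pow, map_pow] at e
      exact eq_zero_of_pow_eq_zero e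
    let ψ : VarRing c →ₐ[K] L := Ideal.Quotient.liftₐ (chartIdeal c).radical
      ((φ.comp (IsScalarTower.toAlgHom K (CoordRing c) (Chart c))).comp
        (Ideal.Quotient.mkₐ K (chartIdeal c))) (fun a ha => h0 a ha)
    exact hg ψ)
  have h2 : ∃ m : ℕ, Ideal.Quotient.mk (chartIdeal c) (den c ^ m * F) = 0 := by
    rw [IsLocalization.map_eq_zero_iff (Submonoid.powers (Ideal.Quotient.mk (chartIdeal c)
      (den c)))] at h1
    obtain ⟨⟨_, m, rfl⟩, hm⟩ := h1
    refine ⟨m, ?_⟩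
    rw [map_mul, map_pow]
    exact hm
  obtain ⟨m, hm⟩ := h2
  rw [Ideal.Quotient.eq_zero_iff_mem] at hm ⊢
  rcases hprime.mem_or_mem (Ideal.le_radical hm) with h3 | h3
  · exact absurd (hprime.mem_of_pow_mem m h3) (hd _ hrad)
  · exact h3

end Pool.Agent.Helper92.CY
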